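import Pool.Agent.H642.LP.Fam

set_option autoImplicit false

/-!
Orbit equivalence relations of the increasing bijections of the line are analytic.
-/

open Set TopologicalSpace MeasureTheory

namespace Pool.Agent.H642.LP

open Pool.Agent.H642.MR (RSp borelR SameR MonoR)
open Pool.Agent.H642.TV (app_inv_self inv_app_self mem_image_iso ext_dense RQ dense_RQ)

attribute [local instance] borelR

/-- Codes for increasing bijections of the line. -/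
def GW (w : ℚ → ℝ) : Prop := (∀ p q, p < q → w p < w q) ∧
  ∀ p q : ℚ, p < q → ∃ r, (p : ℝ) < w r ∧ w r < q

theorem GW.exists_iso {w : ℚ → ℝ} (hw : GW w) : ∃ g : ℝ ≃o ℝ, ∀ q : ℚ, g q = w q := by
  classical
  set φ : ℝ → ℝ := fun x => if h : ∃ q : ℚ, (q : ℝ) = x then w h.choose else 0 with hφ
  have key : ∀ q : ℚ, φ q = w q := by
    intro q
    have h : ∃ r : ℚ, (r : ℝ) = q := ⟨q, rfl⟩
    simp only [hφ]
    rw [dif_pos h]
    have : h.choose = q := by exact_mod_cast h.choose_spec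
    rw [this]
  have hd : Dense (range w) := by
    rw [dense_iff_exists_between]
    intro a b hab
    obtain ⟨p, hp1, hp2⟩ := exists_rat_btwn hab
    obtain ⟨q, hq1, hq2⟩ := exists_rat_btwn hp2
    obtain ⟨r, h1, h2⟩ := hw.2 p q (by exact_mod_cast hq1)
    exact ⟨w r, ⟨r, rfl⟩, hp1.trans h1, h2.trans hq2⟩
  obtain ⟨g, hg⟩ := ext_dense dense_RQ hd φ (by
    rintro _ ⟨p, rfl⟩ _ ⟨q, rfl⟩ hpq
    simp only [key]
    exact hw.1 p q (by exact_mod_cast (show (p : ℝ) < q from hpq))) (by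
    rintro _ ⟨q, rfl⟩
    exact ⟨(q : ℝ), ⟨q, rfl⟩, key q⟩)
  exact ⟨g, fun q => by rw [hg _ ⟨q, rfl⟩, key]⟩

theorem gw_iso (g : ℝ ≃o ℝ) : GW fun q : ℚ => g q := by
  refine ⟨fun p q hpq => g.lt_iff_lt.mpr (by exact_mod_cast hpq), fun p q hpq => ?_⟩
  have h1 : (g⁻¹ : ℝ ≃o ℝ) (p : ℝ) < (g⁻¹ : ℝ ≃o ℝ) q := (g⁻¹).lt_iff_lt.mpr (by exact_mod_cast hpq)
  obtain ⟨r, h2, h3⟩ := exists_rat_btwn h1
  refine ⟨r, ?_, ?_⟩
  · have := g.lt_iff_lt.mpr h2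
    rwa [app_inv_self] at this
  · have := g.lt_iff_lt.mpr h3
    rwa [app_inv_self] at this

theorem real_box {S : Set (ℝ × ℝ)} {a b c d : ℝ} : (S ∩ Ioo a b ×ˢ Ioo c d).Nonempty ↔
    ∃ p q r s : ℚ, a < p ∧ (q : ℝ) < b ∧ c < r ∧ (s : ℝ) < d ∧
      (S ∩ Ioo (p : ℝ) q ×ˢ Ioo (r : ℝ) s).Nonempty := by
  constructor
  · rintro ⟨z, hz, ⟨h1, h2⟩, h3, h4⟩
    obtain ⟨p, p1, p2⟩ := exists_rat_btwn h1
    obtain ⟨q, q1, q2⟩ := exists_rat_btwn h2
    obtain ⟨r, r1, r2⟩ := exists_rat_btwn h3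
    obtain ⟨s, s1, s2⟩ := exists_rat_btwn h4
    exact ⟨p, q, r, s, p1, q2, r1, s2, z, hz, ⟨p2, q1⟩, r2, s1⟩
  · rintro ⟨p, q, r, s, h1, h2, h3, h4, z, hz, ⟨a1, a2⟩, a3, a4⟩
    exact ⟨z, hz, ⟨h1.trans a1, a2.trans h2⟩, h3.trans a3, a4.trans h4⟩

/-- `w` codes a bijection that maps `x` to `y`. -/
def MW (w : ℚ → ℝ) (x y : RSp) : Prop := GW w ∧ ∀ n, ∀ p q c d : ℚ,
  (((x n : Set (ℝ × ℝ)) ∩ Ioo (p : ℝ) q ×ˢ Ioo (c : ℝ) d).Nonempty ↔
    ∃ p' q' r' s' : ℚ, w p < p' ∧ (q' : ℝ) < w q ∧ w c < r' ∧ (s' : ℝ) < w d ∧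
      ((y n : Set (ℝ × ℝ)) ∩ Ioo (p' : ℝ) q' ×ˢ Ioo (r' : ℝ) s').Nonempty)

theorem gi_box {S : Set (ℝ × ℝ)} {g : ℝ ≃o ℝ} {a b c d : ℝ} :
    (gi g⁻¹ S ∩ Ioo a b ×ˢ Ioo c d).Nonempty ↔
      (S ∩ Ioo (g a) (g b) ×ˢ Ioo (g c) (g d)).Nonempty := by
  constructor
  · rintro ⟨z, hz, ⟨h1, h2⟩, h3, h4⟩
    rw [mem_gi, inv_inv] at hz
    exact ⟨_, hz, ⟨g.lt_iff_lt.mpr h1, g.lt_iff_lt.mpr h2⟩, g.lt_iff_lt.mpr h3,
      g.lt_iff_lt.mpr h4⟩
  · rintro ⟨z, hz, ⟨h1, h2⟩, h3, h4⟩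
    refine ⟨(g⁻¹ z.1, g⁻¹ z.2), ⟨z, hz, rfl⟩, ⟨?_, ?_⟩, ?_, ?_⟩
    · rw [← g.lt_iff_lt, app_inv_self]
      exact h1
    · rw [← g.lt_iff_lt, app_inv_self]
      exact h2
    · show c < g⁻¹ z.2
      rw [← g.lt_iff_lt, app_inv_self]
      exact h3
    · show g⁻¹ z.2 < d
      rw [← g.lt_iff_lt, app_inv_self]
      exact h4

theorem sameR_iff_MW {x y : RSp} : SameR x y ↔ ∃ w, MW w x y := by
  rw [sameR_maps]
  constructor
  · rintro ⟨g, hg⟩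
    refine ⟨fun q => g q, gw_iso g, fun n p q c d => ?_⟩
    have h1 : (x n : Set (ℝ × ℝ)) = gi g⁻¹ (y n) := hg.symm n
    rw [h1, gi_box, real_box]
  · rintro ⟨w, hw, h⟩
    obtain ⟨g, hg⟩ := hw.exists_iso
    refine ⟨g, ?_⟩
    have h2 : Maps g⁻¹ y x := by
      intro n
      refine eq_of_boxes (x n).isClosed ?_ fun p q c d => ?_
      · have : gi g⁻¹ (y n : Set (ℝ × ℝ)) = closure (gi g⁻¹ (y n)) := by
          rw [← gi_closure, (y n).isClosed.closure_eq]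
        rw [this]
        exact isClosed_closure
      · rw [h n p q c d, gi_box, real_box, hg, hg, hg, hg]
    have h3 := h2.symm
    rwa [inv_inv] at h3

theorem m_GW {Ω : Type} [MeasurableSpace Ω] : Measurable fun p : Ω × (ℚ → ℝ) => GW p.2 := by
  have h1 : ∀ q : ℚ, Measurable fun p : Ω × (ℚ → ℝ) => p.2 q := fun q =>
    (measurable_pi_apply q).comp measurable_snd
  exact .and (.forall fun p => .forall fun q => .imp measurable_const
    (measurableSet_setOfPred.mp (measurableSet_lt (h1 p) (h1 q))))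
    (.forall fun p => .forall fun q => .imp measurable_const (.exists fun r => .and
      (m_gt (h1 r) p) (m_lt (h1 r) q)))

theorem em_comp {Ω Ω' : Type} [MeasurableSpace Ω] [MeasurableSpace Ω'] {R : Ω → Set (ℝ × ℝ)}
    (hR : EM R) {f : Ω' → Ω} (hf : Measurable f) : EM fun ω => R (f ω) :=
  fun U hU => (hR U hU).comp hf

/-- The orbit equivalence relation is analytic. -/
theorem analytic_same {u v : (ℕ → Bool) → RSp} (hu : Measurable u) (hv : Measurable v) :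
    AnalyticSet {p : (ℕ → Bool) × (ℕ → Bool) | SameR (u p.1) (v p.2)} := by
  have h1 : ∀ q : ℚ, Measurable fun p : ((ℕ → Bool) × (ℕ → Bool)) × (ℚ → ℝ) => p.2 q := fun q =>
    (measurable_pi_apply q).comp measurable_snd
  have h2 : ∀ n, EM fun p : ((ℕ → Bool) × (ℕ → Bool)) × (ℚ → ℝ) => (u p.1.1 n : Set (ℝ × ℝ)) :=
    fun n => em_comp (em_coord n) (hu.comp (measurable_fst.comp measurable_fst))
  have h3 : ∀ n, EM fun p : ((ℕ → Bool) × (ℕ → Bool)) × (ℚ → ℝ) => (v p.1.2 n : Set (ℝ × ℝ)) :=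
    fun n => em_comp (em_coord n) (hv.comp (measurable_snd.comp measurable_fst))
  have h4 : Measurable fun p : ((ℕ → Bool) × (ℕ → Bool)) × (ℚ → ℝ) =>
      MW p.2 (u p.1.1) (v p.1.2) :=
    .and m_GW (.forall fun n => .forall fun p => .forall fun q => .forall fun c => .forall fun d =>
      .iff (h2 n _ (isOpen_Ioo.prod isOpen_Ioo)) (.exists fun p' => .exists fun q' =>
        .exists fun r' => .exists fun s' => .and (m_lt (h1 p) p') (.and (m_gt (h1 q) q')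
          (.and (m_lt (h1 c) r') (.and (m_gt (h1 d) s') (h3 n _ (isOpen_Ioo.prod isOpen_Ioo)))))))
  have h5 : {p : (ℕ → Bool) × (ℕ → Bool) | SameR (u p.1) (v p.2)} =
      Prod.fst '' {p : ((ℕ → Bool) × (ℕ → Bool)) × (ℚ → ℝ) | MW p.2 (u p.1.1) (v p.1.2)} := by
    ext p
    constructor
    · intro hp
      obtain ⟨w, hw⟩ := sameR_iff_MW.mp hp
      exact ⟨(p, w), hw, rfl⟩
    · rintro ⟨⟨p', w⟩, hw, rfl⟩
      exact sameR_iff_MW.mpr ⟨w, hw⟩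
  rw [h5]
  exact (measurableSet_setOfPred.mpr h4).analyticSet_image measurable_fst

end Pool.Agent.H642.LP
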