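import Pool.Agent.H642.LP.Idx

set_option autoImplicit false

/-!
The boxes that meet a piece of a locally piecewise monotone relation, and measurability.
-/

open Set

namespace Pool.Agent.H642.LP

variable {R : Set (ℝ × ℝ)}

/-- Points of a closed relation over a point. -/
theorem fiber (hR : IsClosed R) {τ c d l m : ℝ} (hl : l < τ) (hm : τ < m)
    (h : ∀ p q : ℚ, l < p → (p : ℝ) < τ → τ < q → (q : ℝ) < m →
      (R ∩ Ioo (p : ℝ) q ×ˢ Ioo c d).Nonempty) : ∃ y ∈ Icc c d, (τ, y) ∈ R := by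
  by_contra hc
  push Not at hc
  have hsub : ({τ} : Set ℝ) ×ˢ Icc c d ⊆ Rᶜ := by
    rintro ⟨x, y⟩ ⟨hx, hy⟩ hR
    have hx : x = τ := hx
    subst hx
    exact hc y hy hR
  obtain ⟨U, V, hU, hV, hτU, hcdV, hUV⟩ :=
    generalized_tube_lemma isCompact_singleton isCompact_Icc hR.isOpen_compl hsub
  obtain ⟨a, b, ⟨h1, h2⟩, h3⟩ := mem_nhds_iff_exists_Ioo_subset.mp (hU.mem_nhds (hτU rfl))
  obtain ⟨p, hp1, hp2⟩ := exists_rat_btwn (max_lt h1 hl)
  obtain ⟨q, hq1, hq2⟩ := exists_rat_btwn (lt_min h2 hm)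
  obtain ⟨z, hz, hz1, hz2⟩ := h p q (lt_of_le_of_lt (le_max_right _ _) hp1) hp2 hq1
    (lt_of_lt_of_le hq2 (min_le_right _ _))
  have e1 : z.1 ∈ U := h3 ⟨(lt_of_le_of_lt (le_max_left _ _) hp1).trans hz1.1,
    hz1.2.trans (lt_of_lt_of_le hq2 (min_le_left _ _))⟩
  have e2 : z.2 ∈ V := hcdV ⟨hz2.1.le, hz2.2.le⟩
  exact hUV (show z ∈ U ×ˢ V from ⟨e1, e2⟩) hz

/-- The rational boxes that meet a piece. -/
def HL (R : Set (ℝ × ℝ)) (b : ℝ) (l : Lab) (p q c d : ℚ) : Prop :=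
  match l with
  | none => (p : ℝ) < b ∧ b < q ∧ ∃ c' d' : ℚ, c < c' ∧ d' < d ∧ ∀ p' q' : ℚ, (p' : ℝ) < b →
      b < q' → (R ∩ Ioo (p' : ℝ) q' ×ˢ Ioo (c' : ℝ) d').Nonempty
  | some ((true, i), false) => ∃ p' q' : ℚ, p < p' ∧ q' < q ∧ b < p' ∧ AL (T R) i b p' ∧
      ¬ AL (T R) (i + 1) b q' ∧ (R ∩ Ioo (p' : ℝ) q' ×ˢ Ioo (c : ℝ) d).Nonempty
  | some ((false, i), false) => ∃ p' q' : ℚ, p < p' ∧ q' < q ∧ (q' : ℝ) < b ∧ AL (T R) i q' b ∧
      ¬ AL (T R) (i + 1) p' b ∧ (R ∩ Ioo (p' : ℝ) q' ×ˢ Ioo (c : ℝ) d).Nonempty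
  | some ((true, i), true) => ∃ p' q' c' d' : ℚ, p < p' ∧ q' < q ∧ c < c' ∧ d' < d ∧ b < p' ∧
      AL (T R) i b p' ∧ ¬ AL (T R) (i + 2) b q' ∧ (T R ∩ Ioo (p' : ℝ) q').Nonempty ∧
      ∀ p'' q'' : ℚ, p' < p'' → q'' < q' → (T R ∩ Ioo (p'' : ℝ) q'').Nonempty →
        (R ∩ Ioo (p'' : ℝ) q'' ×ˢ Ioo (c' : ℝ) d').Nonempty
  | some ((false, i), true) => ∃ p' q' c' d' : ℚ, p < p' ∧ q' < q ∧ c < c' ∧ d' < d ∧
      (q' : ℝ) < b ∧ AL (T R) i q' b ∧ ¬ AL (T R) (i + 2) p' b ∧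
      (T R ∩ Ioo (p' : ℝ) q').Nonempty ∧
      ∀ p'' q'' : ℚ, p' < p'' → q'' < q' → (T R ∩ Ioo (p'' : ℝ) q'').Nonempty →
        (R ∩ Ioo (p'' : ℝ) q'' ×ˢ Ioo (c' : ℝ) d').Nonempty

theorem free_nhds (hR : LPM R) {t : ℝ} (ht : t ∉ T R) :
    ∃ l m, l < t ∧ t < m ∧ ∀ w ∈ T R, l < w → ¬ w < m := by
  obtain ⟨l, m, ⟨h1, h2⟩, h3⟩ := mem_nhds_iff_exists_Ioo_subset.mp
    ((isClosed_T hR).isOpen_compl.mem_nhds ht)
  exact ⟨l, m, h1, h2, fun w hw h4 h5 => h3 ⟨h4, h5⟩ hw⟩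

theorem iso_nhds (hR : LPM R) (t : ℝ) :
    ∃ l m, l < t ∧ t < m ∧ ∀ w ∈ T R, l < w → w < m → w = t := by
  obtain ⟨ε, hε, h1⟩ := locally_finite hR t
  have h2 : IsClosed ((T R ∩ Ioo (t - ε) (t + ε)) \ {t}) := (h1.subset sdiff_subset).isClosed
  obtain ⟨l, m, ⟨h3, h4⟩, h5⟩ := mem_nhds_iff_exists_Ioo_subset.mp
    (h2.isOpen_compl.mem_nhds (show t ∈ _ from fun h => h.2 rfl))
  refine ⟨max l (t - ε), min m (t + ε), max_lt h3 (by linarith), lt_min h4 (by linarith),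
    fun w hw h6 h7 => ?_⟩
  by_contra hc
  exact h5 ⟨lt_of_le_of_lt (le_max_left _ _) h6, lt_of_lt_of_le h7 (min_le_left _ _)⟩
    ⟨⟨hw, lt_of_le_of_lt (le_max_right _ _) h6, lt_of_lt_of_le h7 (min_le_right _ _)⟩, hc⟩

theorem HL_iff (hR : LPM R) (hcl : IsClosed R) (b : ℝ) (l : Lab) (p q c d : ℚ) :
    HL R b l p q c d ↔
      ({z | z ∈ R ∧ z.1 ∈ Lb (T R) b l} ∩ Ioo (p : ℝ) q ×ˢ Ioo (c : ℝ) d).Nonempty := by
  match l with
  | none =>
    constructor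
    · rintro ⟨h1, h2, c', d', h3, h4, h5⟩
      obtain ⟨y, hy, hyR⟩ := fiber hcl (l := b - 1) (m := b + 1) (by linarith) (by linarith)
        (fun p' q' _ a1 a2 _ => h5 p' q' a1 a2)
      have h3' : (c : ℝ) < c' := by exact_mod_cast h3
      have h4' : (d' : ℝ) < d := by exact_mod_cast h4
      exact ⟨(b, y), ⟨hyR, rfl⟩, ⟨h1, h2⟩, h3'.trans_le hy.1, lt_of_le_of_lt hy.2 h4'⟩
    · rintro ⟨z, ⟨h1, h2⟩, ⟨h3, h4⟩, h5, h6⟩
      have h2 : z.1 = b := h2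
      rw [h2] at h3 h4
      obtain ⟨c', e1, e2⟩ := exists_rat_btwn h5
      obtain ⟨d', e3, e4⟩ := exists_rat_btwn h6
      refine ⟨h3, h4, c', d', by exact_mod_cast e1, by exact_mod_cast e4, fun p' q' a1 a2 => ?_⟩
      exact ⟨z, h1, ⟨by rw [h2]; exact a1, by rw [h2]; exact a2⟩, e2, e3⟩
  | some ((true, i), false) =>
    constructor
    · rintro ⟨p', q', h1, h2, h3, h4, h5, z, h6, ⟨h7, h8⟩, h9⟩
      have h1' : (p : ℝ) < p' := by exact_mod_cast h1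
      have h2' : (q' : ℝ) < q := by exact_mod_cast h2
      refine ⟨z, ⟨h6, h3.trans h7, h4.mono le_rfl h7.le, fun h => h5 (h.mono le_rfl h8.le), ?_⟩,
        ⟨h1'.trans h7, h8.trans h2'⟩, h9⟩
      constructor
      · intro hzT
        exact absurd (h4.succ h3 hzT h7.le h8) h5
      · intro h
        exact absurd h (by decide)
    · rintro ⟨z, ⟨h1, h2, h3, h4, h5⟩, ⟨h6, h7⟩, h8⟩
      have hzT : z.1 ∉ T R := fun h => absurd (h5.mp h) (by decide)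
      obtain ⟨l, m, a1, a2, a3⟩ := free_nhds hR hzT
      obtain ⟨p', e1, e2⟩ := exists_rat_btwn (max_lt h6 (max_lt h2 a1))
      obtain ⟨q', e3, e4⟩ := exists_rat_btwn (lt_min h7 a2)
      have f1 : (p : ℝ) < p' := lt_of_le_of_lt (le_max_left _ _) e1
      have f2 : b < p' := lt_of_le_of_lt ((le_max_left _ _).trans (le_max_right _ _)) e1
      have f3 : l < p' := lt_of_le_of_lt ((le_max_right _ _).trans (le_max_right _ _)) e1
      have f4 : (q' : ℝ) < q := lt_of_lt_of_le e4 (min_le_left _ _)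
      have f5 : (q' : ℝ) < m := lt_of_lt_of_le e4 (min_le_right _ _)
      refine ⟨p', q', by exact_mod_cast f1, by exact_mod_cast f4, f2,
        h3.cut_right fun w hw b1 b2 => a3 w hw (f3.trans_le b1) (b2.trans a2),
        fun hc => h4 (hc.cut_right fun w hw b1 b2 => a3 w hw (a1.trans_le b1) (b2.trans f5)),
        z, h1, ⟨e2, e3⟩, h8⟩
  | some ((false, i), false) =>
    constructor
    · rintro ⟨p', q', h1, h2, h3, h4, h5, z, h6, ⟨h7, h8⟩, h9⟩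
      have h1' : (p : ℝ) < p' := by exact_mod_cast h1
      have h2' : (q' : ℝ) < q := by exact_mod_cast h2
      refine ⟨z, ⟨h6, h8.trans h3, h4.mono h8.le le_rfl, fun h => h5 (h.mono h7.le le_rfl), ?_⟩,
        ⟨h1'.trans h7, h8.trans h2'⟩, h9⟩
      constructor
      · intro hzT
        exact absurd (h4.left h3 hzT h7 h8.le) h5
      · intro h
        exact absurd h (by decide)
    · rintro ⟨z, ⟨h1, h2, h3, h4, h5⟩, ⟨h6, h7⟩, h8⟩
      have hzT : z.1 ∉ T R := fun h => absurd (h5.mp h) (by decide)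
      obtain ⟨l, m, a1, a2, a3⟩ := free_nhds hR hzT
      obtain ⟨p', e1, e2⟩ := exists_rat_btwn (max_lt h6 a1)
      obtain ⟨q', e3, e4⟩ := exists_rat_btwn (lt_min h7 (lt_min h2 a2))
      have f1 : (p : ℝ) < p' := lt_of_le_of_lt (le_max_left _ _) e1
      have f3 : l < p' := lt_of_le_of_lt (le_max_right _ _) e1
      have f4 : (q' : ℝ) < q := lt_of_lt_of_le e4 (min_le_left _ _)
      have f2 : (q' : ℝ) < b := lt_of_lt_of_le e4 ((min_le_right _ _).trans (min_le_left _ _))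
      have f5 : (q' : ℝ) < m := lt_of_lt_of_le e4 ((min_le_right _ _).trans (min_le_right _ _))
      refine ⟨p', q', by exact_mod_cast f1, by exact_mod_cast f4, f2,
        h3.cut_left fun w hw b1 b2 => a3 w hw (a1.trans b1) (lt_of_le_of_lt b2 f5),
        fun hc => h4 (hc.cut_left fun w hw b1 b2 => a3 w hw (f3.trans b1) (lt_of_le_of_lt b2 a2)),
        z, h1, ⟨e2, e3⟩, h8⟩
  | some ((true, i), true) =>
    constructor
    · rintro ⟨p', q', c', d', h1, h2, h3, h4, h5, h6, h7, ⟨τ, hτ, t1, t2⟩, h8⟩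
      have h1' : (p : ℝ) < p' := by exact_mod_cast h1
      have h2' : (q' : ℝ) < q := by exact_mod_cast h2
      have h3' : (c : ℝ) < c' := by exact_mod_cast h3
      have h4' : (d' : ℝ) < d := by exact_mod_cast h4
      obtain ⟨y, hy, hyR⟩ := fiber hcl t1 t2 (fun p'' q'' a1 a2 a3 a4 =>
        h8 p'' q'' (by exact_mod_cast a1) (by exact_mod_cast a4) ⟨τ, hτ, a2, a3⟩)
      refine ⟨(τ, y), ⟨hyR, h5.trans t1, h6.mono le_rfl t1.le, fun hc => ?_, ?_⟩,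
        ⟨h1'.trans t1, t2.trans h2'⟩, h3'.trans_le hy.1, lt_of_le_of_lt hy.2 h4'⟩
      · exact h7 (hc.succ (h5.trans t1) hτ le_rfl t2)
      · exact ⟨fun _ => rfl, fun _ => hτ⟩
    · rintro ⟨z, ⟨h1, h2, h3, h4, h5⟩, ⟨h6, h7⟩, h8, h9⟩
      have hzT : z.1 ∈ T R := h5.mpr rfl
      obtain ⟨l, m, a1, a2, a3⟩ := iso_nhds hR z.1
      obtain ⟨p', e1, e2⟩ := exists_rat_btwn (max_lt h6 (max_lt h2 a1))
      obtain ⟨q', e3, e4⟩ := exists_rat_btwn (lt_min h7 a2)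
      obtain ⟨c', k1, k2⟩ := exists_rat_btwn h8
      obtain ⟨d', k3, k4⟩ := exists_rat_btwn h9
      have f1 : (p : ℝ) < p' := lt_of_le_of_lt (le_max_left _ _) e1
      have f2 : b < p' := lt_of_le_of_lt ((le_max_left _ _).trans (le_max_right _ _)) e1
      have f3 : l < p' := lt_of_le_of_lt ((le_max_right _ _).trans (le_max_right _ _)) e1
      have f4 : (q' : ℝ) < q := lt_of_lt_of_le e4 (min_le_left _ _)
      have f5 : (q' : ℝ) < m := lt_of_lt_of_le e4 (min_le_right _ _)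
      refine ⟨p', q', c', d', by exact_mod_cast f1, by exact_mod_cast f4, by exact_mod_cast k1,
        by exact_mod_cast k4, f2, h3.cut_right fun w hw b1 b2 => ?_, fun hc => ?_,
        ⟨z.1, hzT, e2, e3⟩, fun p'' q'' b1 b2 => ?_⟩
      · exact absurd (a3 w hw (f3.trans_le b1) (b2.trans a2)) b2.ne
      · -- two points between `b` and `q'` after the first `i` ones
        obtain ⟨s, g1, g2, g3, w, g4, g5, g6⟩ := hc
        have hwz : w ≤ z.1 := by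
          by_contra hcc
          exact absurd (a3 w g4 (a1.trans (not_le.mp hcc)) (g6.trans f5)) (not_le.mp hcc).ne'
        exact h4 (g3.mono le_rfl (g5.le.trans hwz))
      · rintro ⟨w, hw, g1, g2⟩
        have b1' : (p' : ℝ) < p'' := by exact_mod_cast b1
        have b2' : (q'' : ℝ) < q' := by exact_mod_cast b2
        have := a3 w hw ((f3.trans b1').trans g1) ((g2.trans b2').trans f5)
        rw [this] at g1 g2
        exact ⟨z, h1, ⟨g1, g2⟩, k2, k3⟩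
  | some ((false, i), true) =>
    constructor
    · rintro ⟨p', q', c', d', h1, h2, h3, h4, h5, h6, h7, ⟨τ, hτ, t1, t2⟩, h8⟩
      have h1' : (p : ℝ) < p' := by exact_mod_cast h1
      have h2' : (q' : ℝ) < q := by exact_mod_cast h2
      have h3' : (c : ℝ) < c' := by exact_mod_cast h3
      have h4' : (d' : ℝ) < d := by exact_mod_cast h4
      obtain ⟨y, hy, hyR⟩ := fiber hcl t1 t2 (fun p'' q'' a1 a2 a3 a4 =>
        h8 p'' q'' (by exact_mod_cast a1) (by exact_mod_cast a4) ⟨τ, hτ, a2, a3⟩)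
      refine ⟨(τ, y), ⟨hyR, t2.trans h5, h6.mono t2.le le_rfl, fun hc => ?_, ?_⟩,
        ⟨h1'.trans t1, t2.trans h2'⟩, h3'.trans_le hy.1, lt_of_le_of_lt hy.2 h4'⟩
      · exact h7 (hc.left (t2.trans h5) hτ t1 le_rfl)
      · exact ⟨fun _ => rfl, fun _ => hτ⟩
    · rintro ⟨z, ⟨h1, h2, h3, h4, h5⟩, ⟨h6, h7⟩, h8, h9⟩
      have hzT : z.1 ∈ T R := h5.mpr rfl
      obtain ⟨l, m, a1, a2, a3⟩ := iso_nhds hR z.1
      obtain ⟨p', e1, e2⟩ := exists_rat_btwn (max_lt h6 a1)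
      obtain ⟨q', e3, e4⟩ := exists_rat_btwn (lt_min h7 (lt_min h2 a2))
      obtain ⟨c', k1, k2⟩ := exists_rat_btwn h8
      obtain ⟨d', k3, k4⟩ := exists_rat_btwn h9
      have f1 : (p : ℝ) < p' := lt_of_le_of_lt (le_max_left _ _) e1
      have f3 : l < p' := lt_of_le_of_lt (le_max_right _ _) e1
      have f4 : (q' : ℝ) < q := lt_of_lt_of_le e4 (min_le_left _ _)
      have f2 : (q' : ℝ) < b := lt_of_lt_of_le e4 ((min_le_right _ _).trans (min_le_left _ _))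
      have f5 : (q' : ℝ) < m := lt_of_lt_of_le e4 ((min_le_right _ _).trans (min_le_right _ _))
      refine ⟨p', q', c', d', by exact_mod_cast f1, by exact_mod_cast f4, by exact_mod_cast k1,
        by exact_mod_cast k4, f2, h3.cut_left fun w hw b1 b2 => ?_, fun hc => ?_,
        ⟨z.1, hzT, e2, e3⟩, fun p'' q'' b1 b2 => ?_⟩
      · exact absurd (a3 w hw (a1.trans b1) (lt_of_le_of_lt b2 f5)) b1.ne'
      · exact h4 (hc.drop_left fun w hw b1 b2 => a3 w hw (f3.trans b1) (lt_of_le_of_lt b2 a2))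
      · rintro ⟨w, hw, g1, g2⟩
        have b1' : (p' : ℝ) < p'' := by exact_mod_cast b1
        have b2' : (q'' : ℝ) < q' := by exact_mod_cast b2
        have := a3 w hw ((f3.trans b1').trans g1) ((g2.trans b2').trans f5)
        rw [this] at g1 g2
        exact ⟨z, h1, ⟨g1, g2⟩, k2, k3⟩

end Pool.Agent.H642.LP
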