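import Mathlib

set_option autoImplicit false

/-!
Closed relations on the line that are monotone on the left side and on the right side of each point:
the canonical set of cut points.
-/

open Set

namespace Pool.Agent.H642.LP

/-- The relation is nondecreasing over the interval between `u` and `v`. -/
def MI (R : Set (ℝ × ℝ)) (u v : ℝ) : Prop :=
  ∀ p ∈ R, ∀ q ∈ R, u < p.1 → p.1 < q.1 → q.1 < v → p.2 ≤ q.2

/-- The relation is nonincreasing over the interval between `u` and `v`. -/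
def MD (R : Set (ℝ × ℝ)) (u v : ℝ) : Prop :=
  ∀ p ∈ R, ∀ q ∈ R, u < p.1 → p.1 < q.1 → q.1 < v → q.2 ≤ p.2

/-- The relation is monotone over the interval between `u` and `v`. -/
def MM (R : Set (ℝ × ℝ)) (u v : ℝ) : Prop := MI R u v ∨ MD R u v

/-- The relation is locally piecewise monotone. -/
def LPM (R : Set (ℝ × ℝ)) : Prop := ∀ t, ∃ ε > 0, MM R (t - ε) t ∧ MM R t (t + ε)

variable {R : Set (ℝ × ℝ)}

theorem MI.mono {u v u' v' : ℝ} (h : MI R u v) (h1 : u ≤ u') (h2 : v' ≤ v) : MI R u' v' :=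
  fun p hp q hq a b c => h p hp q hq (lt_of_le_of_lt h1 a) b (lt_of_lt_of_le c h2)

theorem MD.mono {u v u' v' : ℝ} (h : MD R u v) (h1 : u ≤ u') (h2 : v' ≤ v) : MD R u' v' :=
  fun p hp q hq a b c => h p hp q hq (lt_of_le_of_lt h1 a) b (lt_of_lt_of_le c h2)

theorem MM.mono {u v u' v' : ℝ} (h : MM R u v) (h1 : u ≤ u') (h2 : v' ≤ v) : MM R u' v' :=
  h.imp (fun h => h.mono h1 h2) fun h => h.mono h1 h2

/-- Unions in the upper end point. -/
theorem MM.up {u v : ℝ} (h : ∀ w, w < v → MM R u w) : MM R u v := by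
  by_contra hc
  rw [MM, not_or] at hc
  obtain ⟨h1, h2⟩ := hc
  unfold MI at h1
  unfold MD at h2
  push Not at h1 h2
  obtain ⟨p, hp, q, hq, a1, a2, a3, a4⟩ := h1
  obtain ⟨p', hp', q', hq', b1, b2, b3, b4⟩ := h2
  obtain ⟨w, hw, hw'⟩ := exists_between (max_lt a3 b3)
  rcases h w hw' with h3 | h3
  · exact absurd (h3 p hp q hq a1 a2 (lt_of_le_of_lt (le_max_left _ _) hw)) (not_le.mpr a4)
  · exact absurd (h3 p' hp' q' hq' b1 b2 (lt_of_le_of_lt (le_max_right _ _) hw)) (not_le.mpr b4)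

/-- Unions in the lower end point. -/
theorem MM.down {u v : ℝ} (h : ∀ w, u < w → MM R w v) : MM R u v := by
  by_contra hc
  rw [MM, not_or] at hc
  obtain ⟨h1, h2⟩ := hc
  unfold MI at h1
  unfold MD at h2
  push Not at h1 h2
  obtain ⟨p, hp, q, hq, a1, a2, a3, a4⟩ := h1
  obtain ⟨p', hp', q', hq', b1, b2, b3, b4⟩ := h2
  obtain ⟨w, hw, hw'⟩ := exists_between (lt_min a1 b1)
  rcases h w hw with h3 | h3
  · exact absurd (h3 p hp q hq (lt_of_lt_of_le hw' (min_le_left _ _)) a2 a3) (not_le.mpr a4)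
  · exact absurd (h3 p' hp' q' hq' (lt_of_lt_of_le hw' (min_le_right _ _)) b2 b3) (not_le.mpr b4)

/-- The cut points: the right end points of the maximal intervals with a given left end point over
which the relation is monotone. -/
def T (R : Set (ℝ × ℝ)) : Set ℝ := {v | ∃ b, b < v ∧ MM R b v ∧ ∀ w, v < w → ¬ MM R b w}

theorem exists_T {r s s' : ℝ} (h0 : r < s) (h1 : MM R r s) (h2 : ¬ MM R r s') :
    ∃ v ∈ T R, s ≤ v ∧ v < s' ∧ r < v ∧ MM R r v := by
  have hss : s ≤ s' := by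
    by_contra hc
    exact h2 (h1.mono le_rfl (not_le.mp hc).le)
  set W : Set ℝ := {w | w ≤ s' ∧ MM R r w} with hW
  have hsW : s ∈ W := ⟨hss, h1⟩
  have hbd : BddAbove W := ⟨s', fun w hw => hw.1⟩
  set v := sSup W with hv
  have hsv : s ≤ v := le_csSup hbd hsW
  have hvs : v ≤ s' := csSup_le ⟨s, hsW⟩ fun w hw => hw.1
  have hv1 : MM R r v := MM.up fun w hw => by
    obtain ⟨w', hw', hlt⟩ := exists_lt_of_lt_csSup ⟨s, hsW⟩ hw
    exact hw'.2.mono le_rfl hlt.le
  have hvs' : v < s' := lt_of_le_of_ne hvs fun e => h2 (e ▸ hv1)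
  refine ⟨v, ⟨r, h0.trans_le hsv, hv1, fun w hw hc => ?_⟩, hsv, hvs', h0.trans_le hsv, hv1⟩
  rcases le_or_gt w s' with h3 | h3
  · exact absurd (le_csSup hbd ⟨h3, hc⟩) (not_le.mpr hw)
  · exact h2 (hc.mono le_rfl h3.le)

/-- The cut points in an interval. -/
theorem T_inter_iff {p q : ℝ} : (T R ∩ Ioo p q).Nonempty ↔
    ∃ r s s' : ℚ, p < s ∧ (r : ℝ) < s ∧ (s : ℝ) < s' ∧ (s' : ℝ) < q ∧ MM R r s ∧ ¬ MM R r s' := by
  constructor
  · rintro ⟨v, ⟨b, hb, h1, h2⟩, hpv, hvq⟩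
    obtain ⟨s', h3, h4⟩ := exists_rat_btwn hvq
    have h5 : ∃ r : ℚ, b < r ∧ (r : ℝ) < v ∧ ¬ MM R r s' := by
      by_contra hc
      push Not at hc
      refine h2 s' h3 (MM.down fun w hw => ?_)
      obtain ⟨r, hr, hr'⟩ := exists_rat_btwn (lt_min hw hb)
      exact (hc r hr (lt_of_lt_of_le hr' (min_le_right _ _))).mono
        (lt_of_lt_of_le hr' (min_le_left _ _)).le le_rfl
    obtain ⟨r, hr1, hr2, hr3⟩ := h5
    obtain ⟨s, h6, h7⟩ := exists_rat_btwn (max_lt hpv hr2)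
    exact ⟨r, s, s', lt_of_le_of_lt (le_max_left _ _) h6, lt_of_le_of_lt (le_max_right _ _) h6,
      h7.trans h3, h4, h1.mono hr1.le h7.le, hr3⟩
  · rintro ⟨r, s, s', h1, h2, h3, h4, h5, h6⟩
    obtain ⟨v, hv, h7, h8, _⟩ := exists_T h2 h5 h6
    exact ⟨v, hv, h1.trans_le h7, h8.trans h4⟩

/-- The relation is monotone over intervals without cut points. -/
theorem MM_of_T (hR : LPM R) {u v : ℝ} (h : ∀ t ∈ Ioo u v, t ∉ T R) : MM R u v := by
  refine MM.down fun b hb => ?_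
  by_contra hc
  obtain ⟨ε, hε, _, h1⟩ := hR b
  obtain ⟨w, hw1, hw2, h3, h4, _⟩ := exists_T (by linarith) h1 hc
  exact h w ⟨hb.trans h4, h3⟩ hw1

/-- A set of reals without three elements is finite. -/
theorem finite_of_three {S : Set ℝ} (h : ∀ a ∈ S, ∀ b ∈ S, ∀ c ∈ S, a < b → b < c → False) :
    S.Finite := by
  by_contra hS
  have hS : S.Infinite := hS
  obtain ⟨t, ht, hc⟩ := hS.exists_subset_card_eq 3
  have e := t.orderIsoOfFin hc
  have h01 : (e 0 : ℝ) < e 1 := e.lt_iff_lt.mpr (by decide)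
  have h12 : (e 1 : ℝ) < e 2 := e.lt_iff_lt.mpr (by decide)
  exact h _ (ht (e 0).2) _ (ht (e 1).2) _ (ht (e 2).2) h01 h12

/-- There are finitely many cut points above `s` with a witness that is not above `s`. -/
theorem finite_W (s : ℝ) : {v | s < v ∧ ∃ b ≤ s, MM R b v ∧ ∀ w, v < w → ¬ MM R b w}.Finite := by
  have h1 : {v | s < v ∧ ∃ b ≤ s, MI R b v ∧ ∀ w, v < w → ¬ MM R b w}.Finite := by
    refine finite_of_three ?_
    rintro v ⟨hv, b, hb, h1, h2⟩ v' ⟨hv', b', hb', h1', h2'⟩ v'' ⟨hv'', b'', hb'', h1'', h2''⟩ e e'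
    have c1 : b < b' := by
      by_contra hc
      exact h2 v' e (Or.inl (h1'.mono (not_lt.mp hc) le_rfl))
    have c2 : b' < b'' := by
      by_contra hc
      exact h2' v'' e' (Or.inl (h1''.mono (not_lt.mp hc) le_rfl))
    have d1 : ¬ MI R b v' := fun h => h2 v' e (Or.inl h)
    have d2 : ¬ MI R b' v'' := fun h => h2' v'' e' (Or.inl h)
    unfold MI at d1 d2
    push Not at d1 d2
    obtain ⟨p, hp, q, hq, a1, a2, a3, a4⟩ := d1
    obtain ⟨p', hp', q', hq', f1, f2, f3, f4⟩ := d2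
    have g1 : p.1 ≤ b' := by
      by_contra hc
      exact absurd (h1' p hp q hq (not_le.mp hc) a2 a3) (not_le.mpr a4)
    have g2 : v ≤ q.1 := by
      by_contra hc
      exact absurd (h1 p hp q hq a1 a2 (not_le.mp hc)) (not_le.mpr a4)
    have g3 : p'.1 ≤ b'' := by
      by_contra hc
      exact absurd (h1'' p' hp' q' hq' (not_le.mp hc) f2 f3) (not_le.mpr f4)
    have k1 := h1 p hp p' hp' a1 (lt_of_le_of_lt g1 f1) (lt_of_le_of_lt (g3.trans hb'') hv)
    have k2 := h1' p' hp' q hq f1 (lt_of_lt_of_le (lt_of_le_of_lt (g3.trans hb'') hv) g2) a3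
    linarith
  have h2 : {v | s < v ∧ ∃ b ≤ s, MD R b v ∧ ∀ w, v < w → ¬ MM R b w}.Finite := by
    refine finite_of_three ?_
    rintro v ⟨hv, b, hb, h1, h2⟩ v' ⟨hv', b', hb', h1', h2'⟩ v'' ⟨hv'', b'', hb'', h1'', h2''⟩ e e'
    have c1 : b < b' := by
      by_contra hc
      exact h2 v' e (Or.inr (h1'.mono (not_lt.mp hc) le_rfl))
    have c2 : b' < b'' := by
      by_contra hc
      exact h2' v'' e' (Or.inr (h1''.mono (not_lt.mp hc) le_rfl))
    have d1 : ¬ MD R b v' := fun h => h2 v' e (Or.inr h)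
    have d2 : ¬ MD R b' v'' := fun h => h2' v'' e' (Or.inr h)
    unfold MD at d1 d2
    push Not at d1 d2
    obtain ⟨p, hp, q, hq, a1, a2, a3, a4⟩ := d1
    obtain ⟨p', hp', q', hq', f1, f2, f3, f4⟩ := d2
    have g1 : p.1 ≤ b' := by
      by_contra hc
      exact absurd (h1' p hp q hq (not_le.mp hc) a2 a3) (not_le.mpr a4)
    have g2 : v ≤ q.1 := by
      by_contra hc
      exact absurd (h1 p hp q hq a1 a2 (not_le.mp hc)) (not_le.mpr a4)
    have g3 : p'.1 ≤ b'' := by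
      by_contra hc
      exact absurd (h1'' p' hp' q' hq' (not_le.mp hc) f2 f3) (not_le.mpr f4)
    have k1 := h1 p hp p' hp' a1 (lt_of_le_of_lt g1 f1) (lt_of_le_of_lt (g3.trans hb'') hv)
    have k2 := h1' p' hp' q hq f1 (lt_of_lt_of_le (lt_of_le_of_lt (g3.trans hb'') hv) g2) a3
    linarith
  refine (h1.union h2).subset ?_
  rintro v ⟨hv, b, hb, h3 | h3, h4⟩
  · exact Or.inl ⟨hv, b, hb, h3, h4⟩
  · exact Or.inr ⟨hv, b, hb, h3, h4⟩

/-- The set of the cut points is locally finite. -/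
theorem locally_finite (hR : LPM R) (s : ℝ) : ∃ ε > 0, (T R ∩ Ioo (s - ε) (s + ε)).Finite := by
  obtain ⟨ε, hε, h1, h2⟩ := hR s
  refine ⟨ε, hε, (((finite_W (R := R) s).union (finite_W (R := R) (s - ε))).union
    (finite_singleton s)).subset ?_⟩
  rintro v ⟨⟨b, hb, h3, h4⟩, h5, h6⟩
  rcases lt_trichotomy v s with h | h | h
  · left; right
    refine ⟨h5, b, ?_, h3, h4⟩
    by_contra hc
    exact h4 s h (h1.mono (not_le.mp hc).le le_rfl)
  · exact Or.inr h
  · left; left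
    refine ⟨h, b, ?_, h3, h4⟩
    by_contra hc
    exact h4 (s + ε) h6 (h2.mono (not_le.mp hc).le le_rfl)

theorem finite_Icc (hR : LPM R) (u v : ℝ) : (T R ∩ Icc u v).Finite := by
  refine isCompact_Icc.induction_on (p := fun S => (T R ∩ S).Finite) (by simp)
    (fun s t hst h => h.subset (inter_subset_inter_right _ hst))
    (fun s t hs ht => by rw [inter_union_distrib_left]; exact hs.union ht) fun s _ => ?_
  obtain ⟨ε, hε, h1⟩ := locally_finite hR s
  exact ⟨Ioo (s - ε) (s + ε), mem_nhdsWithin_of_mem_nhds (Ioo_mem_nhds (by linarith)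
    (by linarith)), h1⟩

theorem countable_T (hR : LPM R) : (T R).Countable := by
  have h1 : T R = ⋃ n : ℕ, T R ∩ Icc (-(n : ℝ)) n := by
    ext t
    simp only [mem_iUnion, mem_inter_iff, mem_Icc]
    constructor
    · intro h
      obtain ⟨n, hn⟩ := exists_nat_ge |t|
      rw [abs_le] at hn
      exact ⟨n, h, hn⟩
    · rintro ⟨_, h, _⟩
      exact h
  rw [h1]
  exact countable_iUnion fun n => (finite_Icc hR _ _).countable

theorem isClosed_T (hR : LPM R) : IsClosed (T R) := by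
  rw [← isOpen_compl_iff, isOpen_iff_mem_nhds]
  intro s hs
  obtain ⟨ε, hε, h1⟩ := locally_finite hR s
  have h2 : IsOpen (T R ∩ Ioo (s - ε) (s + ε))ᶜ := h1.isClosed.isOpen_compl
  have h3 := (h2.inter (isOpen_Ioo (a := s - ε) (b := s + ε))).mem_nhds
    (show s ∈ _ from ⟨fun h => hs h.1, by linarith, by linarith⟩)
  exact Filter.mem_of_superset h3 fun t ht htT => ht.1 ⟨htT, ht.2⟩

/-- The relation is monotone over closed intervals without cut points. -/
theorem mono_Icc (hR : LPM R) {u v : ℝ} (huv : u ≤ v) (h : ∀ t ∈ Icc u v, t ∉ T R) :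
    ∃ u' v', u' < u ∧ v < v' ∧ MM R u' v' := by
  have h1 := (isClosed_T hR).isOpen_compl
  obtain ⟨l, m, ⟨a1, a2⟩, a3⟩ := mem_nhds_iff_exists_Ioo_subset.mp
    (h1.mem_nhds (h u (left_mem_Icc.mpr huv)))
  obtain ⟨l', m', ⟨b1, b2⟩, b3⟩ := mem_nhds_iff_exists_Ioo_subset.mp
    (h1.mem_nhds (h v (right_mem_Icc.mpr huv)))
  refine ⟨l, m', a1, b2, MM_of_T hR fun t ht => ?_⟩
  rcases lt_or_ge t u with h2 | h2
  · exact a3 ⟨ht.1, h2.trans a2⟩
  · rcases le_or_gt t v with h3 | h3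
    · exact h t ⟨h2, h3⟩
    · exact b3 ⟨b1.trans h3, ht.2⟩

end Pool.Agent.H642.LP
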