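import Pool.Agent.H642.LP.MeasL
import Pool.Agent.H642.MR.Main

set_option autoImplicit false

/-!
Naturality of the pieces under increasing bijections of the line, and the space of sequences of
closed relations.
-/

open Set TopologicalSpace MeasureTheory

namespace Pool.Agent.H642.LP

open Pool.Agent.H642.TV (app_inv_self inv_app_self mem_image_iso)
open Pool.Agent.H642.MR (RSp borelR SameR MonoR ghomeo)

/-- The image of a relation. -/
def gi (g : ℝ ≃o ℝ) (R : Set (ℝ × ℝ)) : Set (ℝ × ℝ) := (fun p : ℝ × ℝ => (g p.1, g p.2)) '' R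

variable {R : Set (ℝ × ℝ)} {g : ℝ ≃o ℝ}

theorem mem_gi {p : ℝ × ℝ} : p ∈ gi g R ↔ (g⁻¹ p.1, g⁻¹ p.2) ∈ R := by
  constructor
  · rintro ⟨q, hq, rfl⟩
    simp only [inv_app_self]
    exact hq
  · intro h
    exact ⟨_, h, by simp only [app_inv_self]⟩

theorem gi_inv : gi g⁻¹ (gi g R) = R := by
  ext p
  rw [mem_gi, mem_gi]
  simp only [inv_inv, inv_app_self]

theorem gi_closure : gi g (closure R) = closure (gi g R) := (ghomeo g).image_closure _

theorem MM.map {u v : ℝ} (h : MM R u v) : MM (gi g R) (g u) (g v) := by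
  rcases h with h | h
  · left
    rintro _ ⟨p, hp, rfl⟩ _ ⟨q, hq, rfl⟩ h1 h2 h3
    exact g.le_iff_le.mpr (h p hp q hq (g.lt_iff_lt.mp h1) (g.lt_iff_lt.mp h2)
      (g.lt_iff_lt.mp h3))
  · right
    rintro _ ⟨p, hp, rfl⟩ _ ⟨q, hq, rfl⟩ h1 h2 h3
    exact g.le_iff_le.mpr (h p hp q hq (g.lt_iff_lt.mp h1) (g.lt_iff_lt.mp h2)
      (g.lt_iff_lt.mp h3))

theorem MM_map_iff {u v : ℝ} : MM (gi g R) (g u) (g v) ↔ MM R u v := by
  refine ⟨fun h => ?_, fun h => h.map⟩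
  have := h.map (g := g⁻¹)
  rwa [gi_inv, inv_app_self, inv_app_self] at this

theorem T_map {v : ℝ} (h : v ∈ T R) : g v ∈ T (gi g R) := by
  obtain ⟨b, hb, h1, h2⟩ := h
  refine ⟨g b, g.lt_iff_lt.mpr hb, h1.map, fun w hw hc => ?_⟩
  have e : w = g (g⁻¹ w) := (app_inv_self g w).symm
  rw [e] at hw hc
  exact h2 _ (g.lt_iff_lt.mp hw) (MM_map_iff.mp hc)

theorem T_gi : T (gi g R) = g '' T R := by
  ext v
  rw [mem_image_iso]
  constructor
  · intro h
    have := T_map (g := g⁻¹) h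
    rwa [gi_inv] at this
  · intro h
    have := T_map (g := g) h
    rwa [app_inv_self] at this

theorem LPM_gi (h : LPM R) : LPM (gi g R) := by
  intro t
  obtain ⟨ε, hε, h1, h2⟩ := h (g⁻¹ t)
  have e : g (g⁻¹ t) = t := app_inv_self g t
  have a1 : g (g⁻¹ t - ε) < t := by
    have : g (g⁻¹ t - ε) < g (g⁻¹ t) := g.lt_iff_lt.mpr (by linarith)
    rwa [e] at this
  have a2 : t < g (g⁻¹ t + ε) := by
    have : g (g⁻¹ t) < g (g⁻¹ t + ε) := g.lt_iff_lt.mpr (by linarith)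
    rwa [e] at this
  have h1' := h1.map (g := g)
  have h2' := h2.map (g := g)
  rw [e] at h1' h2'
  refine ⟨min (t - g (g⁻¹ t - ε)) (g (g⁻¹ t + ε) - t), lt_min (by linarith) (by linarith),
    h1'.mono ?_ le_rfl, h2'.mono le_rfl ?_⟩
  · linarith [min_le_left (t - g (g⁻¹ t - ε)) (g (g⁻¹ t + ε) - t)]
  · linarith [min_le_right (t - g (g⁻¹ t - ε)) (g (g⁻¹ t + ε) - t)]

theorem AL_map_iff {A : Set ℝ} {i : ℕ} {u v : ℝ} : AL (g '' A) i (g u) (g v) ↔ AL A i u v := by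
  refine ⟨fun h => ?_, fun h => h.map g⟩
  have h1 := h.map g⁻¹
  have h2 : (g⁻¹ : ℝ ≃o ℝ) '' (g '' A) = A := by
    ext x
    rw [mem_image_iso, mem_image_iso]
    simp only [inv_inv, inv_app_self]
  rwa [h2, inv_app_self, inv_app_self] at h1

theorem Lb_map {A : Set ℝ} {b t : ℝ} {l : Lab} : g t ∈ Lb (g '' A) (g b) l ↔ t ∈ Lb A b l := by
  have hA : g t ∈ g '' A ↔ t ∈ A := by rw [mem_image_iso, inv_app_self]
  match l with
  | none => exact g.injective.eq_iff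
  | some ((true, i), k) =>
    show (g b < g t ∧ AL (g '' A) i (g b) (g t) ∧ ¬ AL (g '' A) (i + 1) (g b) (g t) ∧
      (g t ∈ g '' A ↔ k = true)) ↔ (b < t ∧ AL A i b t ∧ ¬ AL A (i + 1) b t ∧ (t ∈ A ↔ k = true))
    rw [g.lt_iff_lt, AL_map_iff, AL_map_iff, hA]
  | some ((false, i), k) =>
    show (g t < g b ∧ AL (g '' A) i (g t) (g b) ∧ ¬ AL (g '' A) (i + 1) (g t) (g b) ∧
      (g t ∈ g '' A ↔ k = true)) ↔ (t < b ∧ AL A i t b ∧ ¬ AL A (i + 1) t b ∧ (t ∈ A ↔ k = true))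
    rw [g.lt_iff_lt, AL_map_iff, AL_map_iff, hA]

theorem PC_gi {b : ℝ} {l : Lab} : PC (gi g R) (g b) l = gi g (PC R b l) := by
  rw [PC, PC, gi_closure]
  congr 1
  ext p
  constructor
  · rintro ⟨⟨q, hq, rfl⟩, h2⟩
    have h2 : g q.1 ∈ Lb (T (gi g R)) (g b) l := h2
    rw [T_gi, Lb_map] at h2
    exact ⟨q, ⟨hq, h2⟩, rfl⟩
  · rintro ⟨q, ⟨hq, h2⟩, rfl⟩
    refine ⟨⟨q, hq, rfl⟩, ?_⟩
    show g q.1 ∈ Lb (T (gi g R)) (g b) l
    rw [T_gi, Lb_map]
    exact h2

/-! ### The space -/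

theorem lab_equiv : Nonempty (ℕ ≃ Option (ℕ × Lab)) := nonempty_equiv_of_countable

/-- Indices. -/
noncomputable def ix : ℕ ≃ Option (ℕ × Lab) := lab_equiv.some

/-- The decomposition with respect to a base point. -/
noncomputable def dec (x : RSp) (b : ℝ) : RSp := fun m =>
  match ix m with
  | none => ⟨{(b, b)}, isClosed_singleton⟩
  | some (n, l) => ⟨PC (x n) b l, isClosed_closure⟩

theorem dec_none (x : RSp) (b : ℝ) : (dec x b (ix.symm none) : Set (ℝ × ℝ)) = {(b, b)} := by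
  unfold dec
  rw [Equiv.apply_symm_apply]
  rfl

theorem dec_some (x : RSp) (b : ℝ) (n : ℕ) (l : Lab) :
    (dec x b (ix.symm (some (n, l))) : Set (ℝ × ℝ)) = PC (x n) b l := by
  unfold dec
  rw [Equiv.apply_symm_apply]
  rfl

/-- The join of the pieces. -/
noncomputable def un (C : RSp) : RSp := fun n =>
  ⟨closure (⋃ l : Lab, (C (ix.symm (some (n, l))) : Set (ℝ × ℝ))), isClosed_closure⟩

theorem coe_un (C : RSp) (n : ℕ) :
    (un C n : Set (ℝ × ℝ)) = closure (⋃ l : Lab, (C (ix.symm (some (n, l))) : Set (ℝ × ℝ))) := rfl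

theorem rsp_ext {x y : RSp} (h : ∀ n, (x n : Set (ℝ × ℝ)) = y n) : x = y :=
  funext fun n => Closeds.ext (h n)

theorem un_dec {x : RSp} (hx : ∀ n, LPM (x n : Set (ℝ × ℝ))) (b : ℝ) : un (dec x b) = x := by
  refine rsp_ext fun n => ?_
  rw [coe_un]
  simp only [dec_some]
  rw [iUnion_PC (hx n) (x n).isClosed]
  exact (x n).isClosed.closure_eq

/-- `g` maps `x` to `y`. -/
def Maps (g : ℝ ≃o ℝ) (x y : RSp) : Prop := ∀ n, (y n : Set (ℝ × ℝ)) = gi g (x n)

theorem sameR_maps {x y : RSp} : SameR x y ↔ ∃ g : ℝ ≃o ℝ, Maps g x y := Iff.rfl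

theorem Maps.symm {x y : RSp} (h : Maps g x y) : Maps g⁻¹ y x := fun n => by
  rw [h n, gi_inv]

theorem gi_iUnion {ι : Type} {S : ι → Set (ℝ × ℝ)} : gi g (⋃ i, S i) = ⋃ i, gi g (S i) :=
  image_iUnion

theorem Maps.un {x y : RSp} (h : Maps g x y) : Maps g (un x) (un y) := fun n => by
  rw [coe_un, coe_un, gi_closure, gi_iUnion]
  congr 1
  exact iUnion_congr fun l => h _

theorem Maps.dec {x y : RSp} (h : Maps g x y) (b : ℝ) : Maps g (dec x b) (dec y (g b)) := fun m => by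
  obtain ⟨o, rfl⟩ := ix.symm.surjective m
  match o with
  | none =>
    rw [dec_none, dec_none]
    show _ = (fun p : ℝ × ℝ => (g p.1, g p.2)) '' {(b, b)}
    rw [image_singleton]
  | some (n, l) =>
    rw [dec_some, dec_some, h n, PC_gi]

theorem Maps.T {x y : RSp} (h : Maps g x y) (n : ℕ) :
    T (y n : Set (ℝ × ℝ)) = g '' T (x n : Set (ℝ × ℝ)) := by
  rw [h n, T_gi]

theorem maps_unique {x y z : RSp} (h : Maps g x y) (h' : Maps g x z) : y = z :=
  rsp_ext fun n => by rw [h n, h' n]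

/-- The decompositions. -/
def Dc (C : RSp) : Prop := ∃ b, (∃ n, b ∈ T (un C n : Set (ℝ × ℝ))) ∧ C = dec (un C) b

theorem Dc.maps {C C' : RSp} (hC : Dc C) (h : Maps g C C') : Dc C' := by
  obtain ⟨b, ⟨n, hb⟩, h1⟩ := hC
  refine ⟨g b, ⟨n, ?_⟩, ?_⟩
  · rw [h.un.T n]
    exact mem_image_of_mem g hb
  · have h2 : Maps g (LP.dec (LP.un C) b) (LP.dec (LP.un C') (g b)) := h.un.dec b
    rw [← h1] at h2
    exact maps_unique h h2

theorem Dc.mono {C : RSp} (hC : Dc C) (hl : ∀ n, LPM (un C n : Set (ℝ × ℝ))) : MonoR C := by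
  obtain ⟨b, _, h1⟩ := hC
  intro m
  obtain ⟨o, rfl⟩ := ix.symm.surjective m
  match o with
  | none =>
    have h2 : (C (ix.symm none) : Set (ℝ × ℝ)) = {(b, b)} := by
      rw [h1, dec_none]
    left
    intro p hp q hq hpq
    have e1 : p = (b, b) := by
      have : p ∈ (C (ix.symm none) : Set (ℝ × ℝ)) := hp
      rwa [h2] at this
    have e2 : q = (b, b) := by
      have : q ∈ (C (ix.symm none) : Set (ℝ × ℝ)) := hq
      rwa [h2] at this
    rw [e1, e2] at hpq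
    exact absurd hpq (lt_irrefl _)
  | some (n, l) =>
    have h2 : (C (ix.symm (some (n, l))) : Set (ℝ × ℝ)) = PC (un C n) b l := by
      conv_lhs => rw [h1]
      rw [dec_some]
    have h3 := mono_PC (hl n) b l
    rw [← h2] at h3
    exact h3

/-- The decompositions of a given sequence are countably many. -/
theorem countable_dec {x : RSp} (hx : ∀ n, LPM (x n : Set (ℝ × ℝ))) :
    {C | Dc C ∧ un C = x}.Countable := by
  refine ((countable_iUnion fun n => countable_T (hx n)).image (dec x)).mono ?_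
  rintro C ⟨⟨b, ⟨n, hb⟩, h1⟩, h2⟩
  rw [h2] at hb h1
  exact ⟨b, mem_iUnion.mpr ⟨n, hb⟩, h1.symm⟩

end Pool.Agent.H642.LP
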