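import Pool.Agent.H642.LP.Equi

set_option autoImplicit false

/-!
Measurability of the set of the decompositions.
-/

open Set TopologicalSpace MeasureTheory

namespace Pool.Agent.H642.LP

open Pool.Agent.H642.MR (RSp borelR SameR MonoR)

attribute [local instance] borelR

theorem em_coord (m : ℕ) : EM fun C : RSp => (C m : Set (ℝ × ℝ)) := fun U hU =>
  measurableSet_setOfPred.mp (MeasurableSpace.measurableSet_generateFrom ⟨m, U, hU, rfl⟩)

theorem em_un (n : ℕ) : EM fun C : RSp => (un C n : Set (ℝ × ℝ)) := by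
  intro U hU
  have h : (fun C : RSp => (((un C n : Set (ℝ × ℝ)) ∩ U).Nonempty : Prop)) =
      fun C => ∃ l : Lab, ((C (ix.symm (some (n, l))) : Set (ℝ × ℝ)) ∩ U).Nonempty := by
    funext C
    rw [coe_un]
    refine propext ⟨?_, ?_⟩
    · rintro ⟨x, hx, hxU⟩
      obtain ⟨y, hyU, hy⟩ := mem_closure_iff.mp hx U hU hxU
      obtain ⟨l, hl⟩ := mem_iUnion.mp hy
      exact ⟨l, y, hl, hyU⟩
    · rintro ⟨l, y, hl, hyU⟩
      exact ⟨y, subset_closure (mem_iUnion.mpr ⟨l, hl⟩), hyU⟩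
  rw [h]
  exact .exists fun l => em_coord _ U hU

theorem m_un : Measurable un := by
  refine measurable_generateFrom ?_
  rintro _ ⟨n, U, hU, rfl⟩
  exact measurableSet_setOfPred.mpr (em_un n U hU)

/-- The base relation is a point of the diagonal. -/
def Sing (C : RSp) : Prop :=
  ((C (ix.symm none) : Set (ℝ × ℝ)) ∩ univ).Nonempty ∧
  ∀ m : ℚ, ¬ (((C (ix.symm none) : Set (ℝ × ℝ)) ∩ Iio (m : ℝ) ×ˢ univ).Nonempty ∧
    ((C (ix.symm none) : Set (ℝ × ℝ)) ∩ univ ×ˢ Ioi (m : ℝ)).Nonempty) ∧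
    ¬ (((C (ix.symm none) : Set (ℝ × ℝ)) ∩ Ioi (m : ℝ) ×ˢ univ).Nonempty ∧
    ((C (ix.symm none) : Set (ℝ × ℝ)) ∩ univ ×ˢ Iio (m : ℝ)).Nonempty)

theorem sing_iff (C : RSp) : Sing C ↔ ∃ b : ℝ, (C (ix.symm none) : Set (ℝ × ℝ)) = {(b, b)} := by
  constructor
  · rintro ⟨⟨z, hz, _⟩, h⟩
    have key : ∀ p ∈ (C (ix.symm none) : Set (ℝ × ℝ)), ∀ q ∈ (C (ix.symm none) : Set (ℝ × ℝ)),
        p.1 = q.2 := by
      intro p hp q hq
      rcases lt_trichotomy p.1 q.2 with h1 | h1 | h1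
      · obtain ⟨m, h2, h3⟩ := exists_rat_btwn h1
        exact absurd ⟨⟨p, hp, h2, trivial⟩, ⟨q, hq, trivial, h3⟩⟩ (h m).1
      · exact h1
      · obtain ⟨m, h2, h3⟩ := exists_rat_btwn h1
        exact absurd ⟨⟨p, hp, h3, trivial⟩, ⟨q, hq, trivial, h2⟩⟩ (h m).2
    refine ⟨z.1, eq_singleton_iff_unique_mem.mpr ⟨?_, fun p hp => ?_⟩⟩
    · have : z = (z.1, z.1) := Prod.ext rfl (key z hz z hz).symm
      rw [← this]
      exact hz
    · exact Prod.ext ((key p hp z hz).trans (key z hz z hz).symm) (key z hz p hp).symm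
  · rintro ⟨b, hb⟩
    refine ⟨⟨(b, b), by rw [hb]; exact ⟨rfl, trivial⟩⟩, fun m => ⟨?_, ?_⟩⟩
    · rintro ⟨⟨p, hp, h1, _⟩, ⟨q, hq, _, h2⟩⟩
      rw [hb] at hp hq
      rw [mem_singleton_iff.mp hp] at h1
      rw [mem_singleton_iff.mp hq] at h2
      have h1 : b < m := h1
      have h2 : (m : ℝ) < b := h2
      exact lt_asymm h1 h2
    · rintro ⟨⟨p, hp, h1, _⟩, ⟨q, hq, _, h2⟩⟩
      rw [hb] at hp hq
      rw [mem_singleton_iff.mp hp] at h1
      rw [mem_singleton_iff.mp hq] at h2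
      have h1 : (m : ℝ) < b := h1
      have h2 : b < m := h2
      exact lt_asymm h1 h2

theorem m_sing : Measurable fun C : RSp => Sing C :=
  .and (em_coord _ _ isOpen_univ) (.forall fun _ => .and
    (.not (.and (em_coord _ _ (isOpen_Iio.prod isOpen_univ))
      (em_coord _ _ (isOpen_univ.prod isOpen_Ioi))))
    (.not (.and (em_coord _ _ (isOpen_Ioi.prod isOpen_univ))
      (em_coord _ _ (isOpen_univ.prod isOpen_Iio)))))

open Classical in
/-- The base point. -/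
noncomputable def bb (C : RSp) : ℝ :=
  if h : ∃ b : ℝ, (C (ix.symm none) : Set (ℝ × ℝ)) = {(b, b)} then h.choose else 0

theorem bb_eq {C : RSp} {b : ℝ} (h : (C (ix.symm none) : Set (ℝ × ℝ)) = {(b, b)}) : bb C = b := by
  have h1 : ∃ b : ℝ, (C (ix.symm none) : Set (ℝ × ℝ)) = {(b, b)} := ⟨b, h⟩
  unfold bb
  rw [dif_pos h1]
  have h3 : (b, b) = (h1.choose, h1.choose) := singleton_injective (h.symm.trans h1.choose_spec)
  exact (congrArg Prod.fst h3).symm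

theorem m_bb : Measurable bb := by
  refine measurable_of_Iio fun a => ?_
  have h : bb ⁻¹' Iio a = ({C | Sing C} ∩ {C | ((C (ix.symm none) : Set (ℝ × ℝ)) ∩
      Iio a ×ˢ univ).Nonempty}) ∪ ({C | ¬ Sing C} ∩ {_C | (0 : ℝ) < a}) := by
    ext C
    by_cases hC : Sing C
    · obtain ⟨b, hb⟩ := (sing_iff C).mp hC
      have h1 : C ∈ bb ⁻¹' Iio a ↔ b < a := by
        show bb C < a ↔ b < a
        rw [bb_eq hb]
      rw [h1]
      constructor
      · intro h2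
        refine Or.inl ⟨hC, (b, b), ?_, h2, trivial⟩
        rw [hb]
        rfl
      · rintro (⟨_, p, hp, h2, _⟩ | ⟨h2, _⟩)
        · rw [hb] at hp
          rw [mem_singleton_iff.mp hp] at h2
          exact h2
        · exact absurd hC h2
    · have h1 : bb C = 0 := by
        unfold bb
        rw [dif_neg fun h => hC ((sing_iff C).mpr h)]
      have h2 : C ∈ bb ⁻¹' Iio a ↔ (0 : ℝ) < a := by
        show bb C < a ↔ _
        rw [h1]
      rw [h2]
      exact ⟨fun h3 => Or.inr ⟨hC, h3⟩, fun h3 => h3.elim (fun h => absurd h.1 hC) fun h => h.2⟩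
  rw [h]
  exact ((measurableSet_setOfPred.mpr m_sing).inter (measurableSet_setOfPred.mpr
    (em_coord _ _ (isOpen_Iio.prod isOpen_univ)))).union
    ((measurableSet_setOfPred.mpr (.not m_sing)).inter (measurableSet_setOfPred.mpr
      measurable_const))

/-- The explicit conditions for decompositions. -/
def DcQ (C : RSp) : Prop := Sing C ∧
  (∃ n, ∀ p q : ℚ, (p : ℝ) < bb C → bb C < q →
    (T (un C n : Set (ℝ × ℝ)) ∩ Ioo (p : ℝ) q).Nonempty) ∧
  ∀ n l, ∀ p q c d : ℚ, (((C (ix.symm (some (n, l))) : Set (ℝ × ℝ)) ∩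
    Ioo (p : ℝ) q ×ˢ Ioo (c : ℝ) d).Nonempty ↔ HL (un C n) (bb C) l p q c d)

theorem m_DcQ : Measurable fun C : RSp => DcQ C :=
  .and m_sing (.and (.exists fun n => .forall fun p => .forall fun q => .imp (m_gt m_bb p)
    (.imp (m_lt m_bb q) (m_T (em_un n) p q))) (.forall fun n => .forall fun l => .forall fun p =>
      .forall fun q => .forall fun c => .forall fun d => .iff
        (em_coord _ _ (isOpen_Ioo.prod isOpen_Ioo)) (m_HL (em_un n) m_bb l p q c d)))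

/-- Closed sets are determined by the rational boxes that they meet. -/
theorem eq_of_boxes {S S' : Set (ℝ × ℝ)} (hS : IsClosed S) (hS' : IsClosed S')
    (h : ∀ p q c d : ℚ, (S ∩ Ioo (p : ℝ) q ×ˢ Ioo (c : ℝ) d).Nonempty ↔
      (S' ∩ Ioo (p : ℝ) q ×ˢ Ioo (c : ℝ) d).Nonempty) : S = S' := by
  have key : ∀ {S S' : Set (ℝ × ℝ)}, IsClosed S' → (∀ p q c d : ℚ,
      (S ∩ Ioo (p : ℝ) q ×ˢ Ioo (c : ℝ) d).Nonempty →
      (S' ∩ Ioo (p : ℝ) q ×ˢ Ioo (c : ℝ) d).Nonempty) → S ⊆ S' := by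
    intro S S' hS' h x hx
    rw [← hS'.closure_eq, mem_closure_iff_nhds]
    intro U hU
    rw [nhds_prod_eq, Filter.mem_prod_iff] at hU
    obtain ⟨V, hV, W, hW, hVW⟩ := hU
    obtain ⟨l, u, ⟨h1, h2⟩, h3⟩ := mem_nhds_iff_exists_Ioo_subset.mp hV
    obtain ⟨l', u', ⟨h1', h2'⟩, h3'⟩ := mem_nhds_iff_exists_Ioo_subset.mp hW
    obtain ⟨p, p1, p2⟩ := exists_rat_btwn h1
    obtain ⟨q, q1, q2⟩ := exists_rat_btwn h2
    obtain ⟨c, c1, c2⟩ := exists_rat_btwn h1'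
    obtain ⟨d, d1, d2⟩ := exists_rat_btwn h2'
    obtain ⟨z, hz, ⟨a1, a2⟩, a3, a4⟩ := h p q c d ⟨x, hx, ⟨p2, q1⟩, c2, d1⟩
    exact ⟨z, hVW ⟨h3 ⟨p1.trans a1, a2.trans q2⟩, h3' ⟨c1.trans a3, a4.trans d2⟩⟩, hz⟩
  exact subset_antisymm (key hS' fun p q c d => (h p q c d).mp)
    (key hS fun p q c d => (h p q c d).mpr)

theorem closure_box {S U : Set (ℝ × ℝ)} (hU : IsOpen U) :
    (closure S ∩ U).Nonempty ↔ (S ∩ U).Nonempty := by
  constructor
  · rintro ⟨x, hx, hxU⟩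
    obtain ⟨y, hyU, hy⟩ := mem_closure_iff.mp hx U hU hxU
    exact ⟨y, hy, hyU⟩
  · rintro ⟨x, hx, hxU⟩
    exact ⟨x, subset_closure hx, hxU⟩

theorem mem_T_iff {R : Set (ℝ × ℝ)} (hR : LPM R) (b : ℝ) : b ∈ T R ↔
    ∀ p q : ℚ, (p : ℝ) < b → b < q → (T R ∩ Ioo (p : ℝ) q).Nonempty := by
  constructor
  · intro h p q h1 h2
    exact ⟨b, h, h1, h2⟩
  · intro h
    by_contra hc
    obtain ⟨l, m, h1, h2, h3⟩ := free_nhds hR hc
    obtain ⟨p, p1, p2⟩ := exists_rat_btwn h1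
    obtain ⟨q, q1, q2⟩ := exists_rat_btwn h2
    obtain ⟨w, hw, hw1, hw2⟩ := h p q p2 q1
    exact h3 w hw (p1.trans hw1) (hw2.trans q2)

theorem DcQ_iff {C : RSp} (hl : ∀ n, LPM (un C n : Set (ℝ × ℝ))) : DcQ C ↔ Dc C := by
  constructor
  · rintro ⟨h1, ⟨n0, h2⟩, h3⟩
    obtain ⟨b, hb⟩ := (sing_iff C).mp h1
    rw [bb_eq hb] at h2 h3
    refine ⟨b, ⟨n0, (mem_T_iff (hl n0) b).mpr h2⟩, rsp_ext fun m => ?_⟩
    obtain ⟨o, rfl⟩ := ix.symm.surjective m
    match o with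
    | none => rw [dec_none, hb]
    | some (n, l) =>
      rw [dec_some]
      refine eq_of_boxes (C _).isClosed isClosed_closure fun p q c d => ?_
      rw [h3 n l p q c d, HL_iff (hl n) (un C n).isClosed, PC,
        closure_box (isOpen_Ioo.prod isOpen_Ioo)]
  · rintro ⟨b, ⟨n0, h2⟩, h3⟩
    have hb : (C (ix.symm none) : Set (ℝ × ℝ)) = {(b, b)} := by
      rw [h3, dec_none]
    refine ⟨(sing_iff C).mpr ⟨b, hb⟩, ⟨n0, ?_⟩, fun n l p q c d => ?_⟩
    · rw [bb_eq hb]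
      exact (mem_T_iff (hl n0) b).mp h2
    · have h4 : (C (ix.symm (some (n, l))) : Set (ℝ × ℝ)) = PC (un C n) b l := by
        conv_lhs => rw [h3]
        rw [dec_some]
      rw [bb_eq hb, h4, HL_iff (hl n) (un C n).isClosed, PC,
        closure_box (isOpen_Ioo.prod isOpen_Ioo)]

/-- The decompositions of the members of `B` form a measurable set. -/
theorem measurableSet_dec {B : Set RSp} (hB : MeasurableSet B)
    (hl : ∀ x ∈ B, ∀ n, LPM (x n : Set (ℝ × ℝ))) : MeasurableSet {C | Dc C ∧ un C ∈ B} := by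
  have h : {C | Dc C ∧ un C ∈ B} = {C | DcQ C} ∩ un ⁻¹' B := by
    ext C
    constructor
    · rintro ⟨h1, h2⟩
      exact ⟨(DcQ_iff (hl _ h2)).mpr h1, h2⟩
    · rintro ⟨h1, h2⟩
      exact ⟨(DcQ_iff (hl _ h2)).mp h1, h2⟩
  rw [h]
  exact (measurableSet_setOfPred.mpr m_DcQ).inter (m_un hB)

end Pool.Agent.H642.LP
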