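import Pool.Agent.H642.LP.Ana
import Pool.Graph.R_seed8.H702R3.TV.Core

set_option autoImplicit false

/-!
The dichotomy for locally piecewise monotone relations, for the group of the homeomorphisms of the
line and for the group of its orientation preserving homeomorphisms.
-/

open Set TopologicalSpace MeasureTheory

namespace Pool.Agent.H642.LP

open Pool.Agent.H642.MR (RSp borelR SameR MonoR sameR_refl sameR_symm sameR_trans)
open Pool.Agent.H642.TV (app_inv_self inv_app_self mem_image_iso)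

attribute [local instance] borelR

/-- The image of a sequence of relations. -/
def img (g : ℝ ≃o ℝ) (x : RSp) : RSp := fun n =>
  ⟨gi g (x n), by
    have h : gi g (x n : Set (ℝ × ℝ)) = closure (gi g (x n)) := by
      rw [← gi_closure, (x n).isClosed.closure_eq]
    rw [h]
    exact isClosed_closure⟩

theorem maps_img (g : ℝ ≃o ℝ) (x : RSp) : Maps g x (img g x) := fun _ => rfl

/-- The reflection of the plane. -/
def nh : ℝ × ℝ ≃ₜ ℝ × ℝ := (Homeomorph.neg ℝ).prodCongr (Homeomorph.neg ℝ)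

/-- The reflection of a sequence of relations. -/
def ng (x : RSp) : RSp := fun n => ⟨nh '' (x n : Set (ℝ × ℝ)), nh.isClosedMap _ (x n).isClosed⟩

theorem m_ng : Measurable ng := by
  refine measurable_generateFrom ?_
  rintro _ ⟨n, U, hU, rfl⟩
  have h : ng ⁻¹' {x : RSp | ((x n : Set (ℝ × ℝ)) ∩ U).Nonempty} =
      {x : RSp | ((x n : Set (ℝ × ℝ)) ∩ nh ⁻¹' U).Nonempty} := by
    ext x
    constructor
    · rintro ⟨_, ⟨z, hz, rfl⟩, hU⟩
      exact ⟨z, hz, hU⟩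
    · rintro ⟨z, hz, hU⟩
      exact ⟨nh z, ⟨z, hz, rfl⟩, hU⟩
  rw [h]
  exact measurableSet_setOfPred.mpr (em_coord n _ (hU.preimage nh.continuous))

variable {Γ : Subgroup (ℝ ≃ₜ ℝ)}

/-- The orbit equivalence relation of `Γ`. -/
def SameG (Γ : Subgroup (ℝ ≃ₜ ℝ)) (x y : RSp) : Prop :=
  ∃ g ∈ Γ, ∀ n, (y n : Set (ℝ × ℝ)) = (fun p : ℝ × ℝ => (g p.1, g p.2)) '' (x n : Set (ℝ × ℝ))

theorem sameG_of_sameR (hΓ : ∀ g : ℝ ≃ₜ ℝ, StrictMono g → g ∈ Γ) {x y : RSp} (h : SameR x y) :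
    SameG Γ x y := by
  obtain ⟨g, hg⟩ := h
  exact ⟨g.toHomeomorph, hΓ _ g.strictMono, hg⟩

theorem sameG_symm {x y : RSp} (h : SameG Γ x y) : SameG Γ y x := by
  obtain ⟨g, hg, h⟩ := h
  refine ⟨g⁻¹, inv_mem hg, fun n => ?_⟩
  rw [h n, image_image]
  have : ∀ p : ℝ × ℝ, ((g⁻¹ : ℝ ≃ₜ ℝ) (g p.1), (g⁻¹ : ℝ ≃ₜ ℝ) (g p.2)) = p := fun p =>
    Prod.ext (g.symm_apply_apply _) (g.symm_apply_apply _)
  simp only [this, image_id']

theorem sameG_trans {x y z : RSp} (h : SameG Γ x y) (h' : SameG Γ y z) : SameG Γ x z := by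
  obtain ⟨g, hg, h⟩ := h
  obtain ⟨g', hg', h'⟩ := h'
  refine ⟨g' * g, mul_mem hg' hg, fun n => ?_⟩
  rw [h' n, h n, image_image]
  rfl

theorem mono_or_anti (g : ℝ ≃ₜ ℝ) : StrictMono g ∨ StrictAnti g :=
  g.continuous.strictMono_of_inj g.injective

theorem sameR_of_mono {g : ℝ ≃ₜ ℝ} (hg : StrictMono g) {x y : RSp}
    (h : ∀ n, (y n : Set (ℝ × ℝ)) = (fun p : ℝ × ℝ => (g p.1, g p.2)) '' (x n : Set (ℝ × ℝ))) :
    SameR x y := ⟨StrictMono.orderIsoOfSurjective g hg g.surjective, h⟩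

theorem sameG_iff (hΓ : ∀ g : ℝ ≃ₜ ℝ, StrictMono g → g ∈ Γ) {x y : RSp} :
    SameG Γ x y ↔ SameR x y ∨ (Homeomorph.neg ℝ ∈ Γ ∧ SameR (ng x) y) := by
  constructor
  · rintro ⟨g, hg, h⟩
    rcases mono_or_anti g with h1 | h1
    · exact Or.inl (sameR_of_mono h1 h)
    · right
      have h2 : StrictMono (g * Homeomorph.neg ℝ : ℝ ≃ₜ ℝ) := fun a b hab =>
        h1 (show -b < -a from neg_lt_neg hab)
      have h3 : Homeomorph.neg ℝ ∈ Γ := by
        have h4 := mul_mem (inv_mem hg) (hΓ _ h2)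
        rwa [inv_mul_cancel_left] at h4
      refine ⟨h3, sameR_of_mono h2 fun n => ?_⟩
      rw [h n]
      show _ = (fun p : ℝ × ℝ => (g (-p.1), g (-p.2))) '' (nh '' (x n : Set (ℝ × ℝ)))
      rw [image_image]
      refine image_congr fun p _ => ?_
      show (g p.1, g p.2) = (g (- - p.1), g (- - p.2))
      rw [neg_neg, neg_neg]
  · rintro (h | ⟨h1, h2⟩)
    · exact sameG_of_sameR hΓ h
    · refine sameG_trans ⟨Homeomorph.neg ℝ, h1, fun n => rfl⟩ (sameG_of_sameR hΓ h2)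

theorem analytic_G (hΓ : ∀ g : ℝ ≃ₜ ℝ, StrictMono g → g ∈ Γ) {u v : (ℕ → Bool) → RSp}
    (hu : Measurable u) (hv : Measurable v) :
    AnalyticSet {p : (ℕ → Bool) × (ℕ → Bool) | SameG Γ (u p.1) (v p.2)} := by
  have h : {p : (ℕ → Bool) × (ℕ → Bool) | SameG Γ (u p.1) (v p.2)} =
      ⋃ i : Bool, bif i then {p | SameR (u p.1) (v p.2)} else
        {_p | Homeomorph.neg ℝ ∈ Γ} ∩ {p | SameR (ng (u p.1)) (v p.2)} := by
    ext p
    rw [mem_iUnion]
    constructor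
    · intro hp
      rcases (sameG_iff hΓ).mp hp with h | h
      · exact ⟨true, h⟩
      · exact ⟨false, h⟩
    · rintro ⟨i, hi⟩
      cases i
      · exact (sameG_iff hΓ).mpr (Or.inr hi)
      · exact (sameG_iff hΓ).mpr (Or.inl hi)
  rw [h]
  refine AnalyticSet.iUnion fun i => ?_
  cases i
  · by_cases hn : Homeomorph.neg ℝ ∈ Γ
    · have h2 := analytic_same (m_ng.comp hu) hv
      simp only [hn, setOf_true, univ_inter, cond_false]
      exact h2
    · simp only [hn, setOf_false, empty_inter, cond_false]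
      exact analyticSet_empty
  · exact analytic_same hu hv

/-- Relations without cut points are monotone. -/
theorem monoR_of_T {x : RSp} (hl : ∀ n, LPM (x n : Set (ℝ × ℝ)))
    (h : ∀ n, T (x n : Set (ℝ × ℝ)) = ∅) : MonoR x := by
  intro n
  have h1 : ∀ u v : ℝ, MM (x n : Set (ℝ × ℝ)) u v := fun u v =>
    MM_of_T (hl n) fun t _ ht => by rw [h n] at ht; exact ht
  by_contra hc
  rw [not_or] at hc
  obtain ⟨h2, h3⟩ := hc
  push Not at h2 h3
  obtain ⟨p, hp, q, hq, a1, a2⟩ := h2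
  obtain ⟨p', hp', q', hq', b1, b2⟩ := h3
  rcases h1 (min p.1 p'.1 - 1) (max q.1 q'.1 + 1) with h4 | h4
  · exact absurd (h4 p hp q hq (by linarith [min_le_left p.1 p'.1]) a1
      (by linarith [le_max_left q.1 q'.1])) (not_le.mpr a2)
  · exact absurd (h4 p' hp' q' hq' (by linarith [min_le_right p.1 p'.1]) b1
      (by linarith [le_max_right q.1 q'.1])) (not_le.mpr b2)

/-- Countable fibres of the join. -/
theorem fibre {B : Set RSp} (hl : ∀ x ∈ B, ∀ n, LPM (x n : Set (ℝ × ℝ))) (y : RSp) :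
    ∃ S : Set RSp, S.Countable ∧ ∀ C' ∈ {C | Dc C ∧ un C ∈ B}, SameR y (un C') →
      ∃ c ∈ S, SameR c C' := by
  by_cases hy : ∀ n, LPM (y n : Set (ℝ × ℝ))
  · refine ⟨_, countable_dec hy, ?_⟩
    rintro C' ⟨h1, _⟩ ⟨g, hg⟩
    have hg : Maps g y (un C') := hg
    have h2 := maps_img g⁻¹ C'
    refine ⟨img g⁻¹ C', ⟨h1.maps h2, maps_unique h2.un hg.symm⟩, g, ?_⟩
    have h3 := h2.symm
    rwa [inv_inv] at h3
  · refine ⟨∅, countable_empty, ?_⟩
    rintro C' ⟨_, h2⟩ ⟨g, hg⟩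
    have hg : Maps g y (un C') := hg
    refine absurd (fun n => ?_) hy
    rw [hg.symm n]
    exact LPM_gi (hl _ h2 n)

theorem mainL (hΓ : ∀ g : ℝ ≃ₜ ℝ, StrictMono g → g ∈ Γ) (B : Set RSp) (hB : MeasurableSet B)
    (hl : ∀ x ∈ B, ∀ n, LPM (x n : Set (ℝ × ℝ))) (hE : ∀ x ∈ B, ∀ y, SameG Γ x y → y ∈ B) :
    (∃ f : ℕ → RSp, ∀ x ∈ B, ∃ n, SameG Γ (f n) x) ∨
    (∃ c : (ℕ → Bool) → RSp, Measurable c ∧ (∀ a, c a ∈ B) ∧
      ∀ a b, SameG Γ (c a) (c b) → a = b) := by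
  have hE' : ∀ x ∈ B, ∀ y, SameR x y → y ∈ B := fun x hx y h => hE x hx y (sameG_of_sameR hΓ h)
  -- the sequences of monotone relations, and the others
  set Z : Set RSp := {x | ∃ n, ∃ p q : ℚ, (T (x n : Set (ℝ × ℝ)) ∩ Ioo (p : ℝ) q).Nonempty} with hZ
  have hZm : MeasurableSet Z := measurableSet_setOfPred.mpr
    (.exists fun n => .exists fun p => .exists fun q => m_T (em_coord n) p q)
  have hZ_iff : ∀ x, x ∈ Z ↔ ∃ n, (T (x n : Set (ℝ × ℝ))).Nonempty := by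
    intro x
    constructor
    · rintro ⟨n, p, q, t, ht, _⟩
      exact ⟨n, t, ht⟩
    · rintro ⟨n, t, ht⟩
      obtain ⟨p, _, hp⟩ := exists_rat_btwn (sub_one_lt t)
      obtain ⟨q, hq, _⟩ := exists_rat_btwn (lt_add_one t)
      exact ⟨n, p, q, t, ht, hp, hq⟩
  have hZinv : ∀ x y, SameR x y → x ∈ Z → y ∈ Z := by
    rintro x y ⟨g, hg⟩ hx
    have hg : Maps g x y := hg
    obtain ⟨n, t, ht⟩ := (hZ_iff x).mp hx
    refine (hZ_iff y).mpr ⟨n, g t, ?_⟩
    rw [hg.T n]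
    exact mem_image_of_mem g ht
  have d0 := Pool.Agent.H642.MR.main (B \ Z) (hB.diff hZm) (fun x hx => monoR_of_T (hl x hx.1)
    fun n => by
      by_contra hc
      exact hx.2 ((hZ_iff x).mpr ⟨n, nonempty_iff_ne_empty.mpr hc⟩))
    (fun x hx y h => ⟨hE' x hx.1 y h, fun hc => hx.2 (hZinv y x (sameR_symm h) hc)⟩)
  have hBZ : MeasurableSet (B ∩ Z) := hB.inter hZm
  have hlZ : ∀ x ∈ B ∩ Z, ∀ n, LPM (x n : Set (ℝ × ℝ)) := fun x hx => hl x hx.1
  have d1 := Pool.Agent.H642.MR.main {C | Dc C ∧ un C ∈ B ∩ Z} (measurableSet_dec hBZ hlZ)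
    (fun C hC => hC.1.mono (hlZ _ hC.2)) (fun C hC C' h => by
      obtain ⟨g, hg⟩ := h
      have hg : Maps g C C' := hg
      exact ⟨hC.1.maps hg, hE' _ hC.2.1 _ ⟨g, hg.un⟩, hZinv _ _ ⟨g, hg.un⟩ hC.2.2⟩)
  rcases d0 with ⟨f0, hf0⟩ | ⟨c, hc1, hc2, hc3⟩
  · rcases d1 with ⟨f1, hf1⟩ | ⟨c, hc1, hc2, hc3⟩
    · left
      refine ⟨fun n => if n % 2 = 0 then f0 (n / 2) else un (f1 (n / 2)), fun x hx => ?_⟩
      by_cases hxZ : x ∈ Z
      · obtain ⟨n, t, ht⟩ := (hZ_iff x).mp hxZ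
        have h1 : un (dec x t) = x := un_dec (hl x hx) t
        have h2 : Dc (dec x t) := ⟨t, ⟨n, by rw [h1]; exact ht⟩, by rw [h1]⟩
        obtain ⟨m, _, g, hg⟩ := hf1 (dec x t) ⟨h2, by rw [h1]; exact ⟨hx, hxZ⟩⟩
        have hg : Maps g (f1 m) (dec x t) := hg
        refine ⟨2 * m + 1, sameG_of_sameR hΓ ?_⟩
        have e1 : ¬ (2 * m + 1) % 2 = 0 := by omega
        have e2 : (2 * m + 1) / 2 = m := by omega
        simp only [e1, e2, if_false]
        have h3 : Maps g (un (f1 m)) (un (dec x t)) := hg.un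
        rw [h1] at h3
        exact ⟨g, h3⟩
      · obtain ⟨m, _, h⟩ := hf0 x ⟨hx, hxZ⟩
        refine ⟨2 * m, sameG_of_sameR hΓ ?_⟩
        have e1 : (2 * m) % 2 = 0 := by omega
        have e2 : (2 * m) / 2 = m := by omega
        simp only [e1, e2, if_true]
        exact h
    · right
      obtain ⟨h, hh1, hh2⟩ := Pool.Agent.H702R3.TV.core (E := SameR) (F := SameG Γ) (ρ := un)
        (A := {C | Dc C ∧ un C ∈ B ∩ Z}) (fun _ _ => sameR_symm) (fun _ _ _ => sameR_trans)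
        (fun C hC => by
          obtain ⟨S1, h1, h1'⟩ := fibre hlZ (un C)
          obtain ⟨S2, h2, h2'⟩ := fibre hlZ (ng (un C))
          refine ⟨S1 ∪ S2, h1.union h2, fun C' hC' hF => ?_⟩
          rcases (sameG_iff hΓ).mp hF with h3 | ⟨_, h3⟩
          · obtain ⟨c, h4, h5⟩ := h1' C' hC' h3
            exact ⟨c, Or.inl h4, h5⟩
          · obtain ⟨c, h4, h5⟩ := h2' C' hC' h3
            exact ⟨c, Or.inr h4, h5⟩) c hc2 hc3 (analytic_G hΓ (m_un.comp hc1) (m_un.comp hc1))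
      refine ⟨fun a => un (c (h a)), (m_un.comp hc1).comp hh1.measurable, fun a => (hc2 _).2.1,
        fun a b hab => ?_⟩
      by_contra hne
      exact hh2 a b hne hab
  · right
    obtain ⟨h, hh1, hh2⟩ := Pool.Agent.H702R3.TV.core (E := SameR) (F := SameG Γ) (ρ := id)
      (A := B \ Z) (fun _ _ => sameR_symm) (fun _ _ _ => sameR_trans)
      (fun x hx => by
        refine ⟨{x} ∪ {ng x}, (countable_singleton _).union (countable_singleton _),
          fun x' hx' hF => ?_⟩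
        rcases (sameG_iff hΓ).mp hF with h3 | ⟨_, h3⟩
        · exact ⟨x, Or.inl rfl, h3⟩
        · exact ⟨ng x, Or.inr rfl, h3⟩) c hc2 hc3 (analytic_G hΓ hc1 hc1)
    refine ⟨fun a => c (h a), hc1.comp hh1.measurable, fun a => (hc2 _).1, fun a b hab => ?_⟩
    by_contra hne
    exact hh2 a b hne hab

end Pool.Agent.H642.LP
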