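import Pool.Agent.H642.LP.Cut

set_option autoImplicit false

/-!
Counting the cut points between two points, and the pieces of a locally piecewise monotone relation
with respect to a base point.
-/

open Set

namespace Pool.Agent.H642.LP

/-- There are at least `i` elements of `A` between `u` and `v`. -/
def AL (A : Set ℝ) : ℕ → ℝ → ℝ → Prop
  | 0, _, _ => True
  | i + 1, u, v => ∃ s : ℚ, u < s ∧ (s : ℝ) < v ∧ AL A i u s ∧ (A ∩ Ioo (s : ℝ) v).Nonempty

variable {A : Set ℝ} {R : Set (ℝ × ℝ)}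

theorem AL.mono {i : ℕ} : ∀ {u v u' v' : ℝ}, AL A i u v → u' ≤ u → v ≤ v' → AL A i u' v' := by
  induction i with
  | zero => exact fun _ _ _ => trivial
  | succ i ih =>
    rintro u v u' v' ⟨s, h1, h2, h3, w, h4, h5, h6⟩ e1 e2
    exact ⟨s, lt_of_le_of_lt e1 h1, lt_of_lt_of_le h2 e2, ih h3 e1 le_rfl, w, h4, h5,
      lt_of_lt_of_le h6 e2⟩

theorem AL.succ {i : ℕ} {u s v w : ℝ} (h : AL A i u s) (hus : u < s) (hw : w ∈ A) (h1 : s ≤ w)
    (h2 : w < v) : AL A (i + 1) u v := by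
  cases i with
  | zero =>
    obtain ⟨s', h3, h4⟩ := exists_rat_btwn (lt_of_lt_of_le hus h1)
    exact ⟨s', h3, h4.trans h2, trivial, w, hw, h4, h2⟩
  | succ i =>
    obtain ⟨r, a1, a2, a3, w', a4, a5, a6⟩ := h
    obtain ⟨s', h3, h4⟩ := exists_rat_btwn (lt_of_lt_of_le a6 h1)
    exact ⟨s', (a1.trans a5).trans h3, h4.trans h2, ⟨r, a1, a5.trans h3, a3, w', a4, a5, h3⟩, w,
      hw, h4, h2⟩

theorem AL_succ_iff {i : ℕ} {u v : ℝ} :
    AL A (i + 1) u v ↔ ∃ s, u < s ∧ s < v ∧ AL A i u s ∧ (A ∩ Ioo s v).Nonempty := by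
  constructor
  · rintro ⟨s, h⟩
    exact ⟨s, h⟩
  · rintro ⟨s, h1, h2, h3, w, h4, h5, h6⟩
    exact h3.succ h1 h4 h5.le h6

/-- Points of `A` on the left add to the count. -/
theorem AL.left {i : ℕ} : ∀ {t v t' w : ℝ}, AL A i t v → t < v → w ∈ A → t' < w → w ≤ t →
    AL A (i + 1) t' v := by
  induction i with
  | zero =>
    intro t v t' w _ h1 h2 h3 h4
    obtain ⟨s, h5, h6⟩ := exists_rat_btwn h3
    exact ⟨s, h5, h6.trans (lt_of_le_of_lt h4 h1), trivial, w, h2, h6, lt_of_le_of_lt h4 h1⟩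
  | succ i ih =>
    rintro t v t' w ⟨s, a1, a2, a3, w', a4, a5, a6⟩ h1 h2 h3 h4
    exact ⟨s, (h3.trans_le h4).trans a1, a2, ih a3 a1 h2 h3 h4, w', a4, a5, a6⟩

theorem AL.ncard {i : ℕ} : ∀ {u v : ℝ}, AL A i u v → (A ∩ Ioo u v).Finite →
    i ≤ (A ∩ Ioo u v).ncard := by
  induction i with
  | zero => exact fun _ _ => Nat.zero_le _
  | succ i ih =>
    rintro u v ⟨s, h1, h2, h3, w, h4, h5, h6⟩ hf
    have h7 : (A ∩ Ioo u s) ⊆ (A ∩ Ioo u v) := fun t ht => ⟨ht.1, ht.2.1, ht.2.2.trans h2⟩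
    have h8 := ih h3 (hf.subset h7)
    have h9 : (A ∩ Ioo u s) ⊂ (A ∩ Ioo u v) := by
      refine ⟨h7, fun h => ?_⟩
      exact absurd (h ⟨h4, h1.trans h5, h6⟩).2.2 (not_lt.mpr h5.le)
    exact lt_of_le_of_lt h8 (ncard_lt_ncard h9 hf)

theorem exists_idx {u v : ℝ} (hf : (A ∩ Ioo u v).Finite) :
    ∃ i, AL A i u v ∧ ¬ AL A (i + 1) u v := by
  by_contra hc
  push Not at hc
  have h1 : ∀ i, AL A i u v := by
    intro i
    induction i with
    | zero => trivial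
    | succ i ih => exact hc i ih
  have := (h1 ((A ∩ Ioo u v).ncard + 1)).ncard hf
  omega

/-- Without points of `A` on the right the count does not change. -/
theorem AL.cut_right {i : ℕ} {u t t' : ℝ} (h : AL A i u t') (h1 : ∀ w ∈ A, t ≤ w → ¬ w < t') :
    AL A i u t := by
  cases i with
  | zero => trivial
  | succ i =>
    obtain ⟨s, a1, a2, a3, w, a4, a5, a6⟩ := h
    have h2 : w < t := by
      by_contra hc
      exact h1 w a4 (not_lt.mp hc) a6
    exact ⟨s, a1, a5.trans h2, a3, w, a4, a5, h2⟩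

theorem AL.cut_left {i : ℕ} : ∀ {v t t' : ℝ}, AL A i t' v → (∀ w ∈ A, t' < w → ¬ w ≤ t) →
    AL A i t v := by
  induction i with
  | zero => exact fun _ _ => trivial
  | succ i ih =>
    rintro v t t' ⟨s, a1, a2, a3, w, a4, a5, a6⟩ h1
    have h2 : t < w := by
      by_contra hc
      exact h1 w a4 (a1.trans a5) (not_lt.mp hc)
    have h3 := ih a3 h1
    rcases lt_or_ge t s with h4 | h4
    · exact ⟨s, h4, a2, h3, w, a4, a5, a6⟩
    · cases i with
      | zero =>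
        obtain ⟨s', e1, e2⟩ := exists_rat_btwn h2
        exact ⟨s', e1, e2.trans a6, trivial, w, a4, e2, a6⟩
      | succ i =>
        obtain ⟨s2, b1, b2, _⟩ := h3
        exact absurd (b1.trans b2) (not_lt.mpr h4)

/-- Removing one point of `A` on the left. -/
theorem AL.drop_left {i : ℕ} : ∀ {v t t' : ℝ}, AL A (i + 1) t' v →
    (∀ w ∈ A, t' < w → w ≤ t → w = t) → AL A i t v := by
  induction i with
  | zero => exact fun _ _ => trivial
  | succ i ih =>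
    rintro v t t' ⟨s, a1, a2, a3, w, a4, a5, a6⟩ h1
    have h3 := ih a3 h1
    rcases lt_or_ge t s with h4 | h4
    · exact ⟨s, h4, a2, h3, w, a4, a5, a6⟩
    · obtain ⟨s2, b1, b2, _, w', b4, b5, b6⟩ := a3
      exact absurd (h1 w' b4 (b1.trans b5) (b6.le.trans h4)) (b6.trans_le h4).ne

theorem AL.map {i : ℕ} (g : ℝ ≃o ℝ) : ∀ {u v : ℝ}, AL A i u v → AL (g '' A) i (g u) (g v) := by
  induction i with
  | zero => exact fun _ => trivial
  | succ i ih =>
    rintro u v ⟨s, h1, h2, h3, w, h4, h5, h6⟩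
    exact (ih h3).succ (g.lt_iff_lt.mpr h1) (mem_image_of_mem g h4) (g.le_iff_le.mpr h5.le)
      (g.lt_iff_lt.mpr h6)

/-! ### Labels -/

/-- Labels of the pieces. -/
abbrev Lab : Type := Option ((Bool × ℕ) × Bool)

/-- The points with a given label. -/
def Lb (A : Set ℝ) (b : ℝ) : Lab → Set ℝ
  | none => {b}
  | some ((true, i), k) => {t | b < t ∧ AL A i b t ∧ ¬ AL A (i + 1) b t ∧ (t ∈ A ↔ k = true)}
  | some ((false, i), k) => {t | t < b ∧ AL A i t b ∧ ¬ AL A (i + 1) t b ∧ (t ∈ A ↔ k = true)}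

theorem exists_label (hA : ∀ u v, (A ∩ Icc u v).Finite) (b t : ℝ) : ∃ l, t ∈ Lb A b l := by
  classical
  have hf : ∀ u v, (A ∩ Ioo u v).Finite := fun u v =>
    (hA u v).subset (inter_subset_inter_right _ Ioo_subset_Icc_self)
  rcases lt_trichotomy t b with h | h | h
  · obtain ⟨i, h1, h2⟩ := exists_idx (hf t b)
    by_cases hk : t ∈ A
    · exact ⟨some ((false, i), true), h, h1, h2, by simp [hk]⟩
    · exact ⟨some ((false, i), false), h, h1, h2, by simp [hk]⟩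
  · exact ⟨none, h⟩
  · obtain ⟨i, h1, h2⟩ := exists_idx (hf b t)
    by_cases hk : t ∈ A
    · exact ⟨some ((true, i), true), h, h1, h2, by simp [hk]⟩
    · exact ⟨some ((true, i), false), h, h1, h2, by simp [hk]⟩

/-- Between two points with the same label there is no point of `A`. -/
theorem Lb_between {b : ℝ} {l : Lab} {t t' w : ℝ} (ht : t ∈ Lb A b l) (ht' : t' ∈ Lb A b l)
    (hw : w ∈ A) (h1 : t ≤ w) (h2 : w ≤ t') (h3 : t < t') : False := by
  match l with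
  | none =>
    have e1 : t = b := ht
    have e2 : t' = b := ht'
    linarith
  | some ((true, i), k) =>
    obtain ⟨a1, a2, a3, a4⟩ := ht
    obtain ⟨b1, b2, b3, b4⟩ := ht'
    rcases h2.eq_or_lt with h5 | h5
    · subst h5
      have hk : t ∈ A := a4.mpr (b4.mp hw)
      exact b3 (a2.succ a1 hk le_rfl h3)
    · exact b3 (a2.succ a1 hw h1 h5)
  | some ((false, i), k) =>
    obtain ⟨a1, a2, a3, a4⟩ := ht
    obtain ⟨b1, b2, b3, b4⟩ := ht'
    rcases h1.eq_or_lt with h5 | h5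
    · subst h5
      have hk : t' ∈ A := b4.mpr (a4.mp hw)
      exact a3 (b2.left b1 hk h3 le_rfl)
    · exact a3 (b2.left b1 hw h5 h2)

/-- The relation is monotone over the points with a given label. -/
theorem mono_Lb (hR : LPM R) (b : ℝ) (l : Lab) :
    (∀ p ∈ R, ∀ q ∈ R, p.1 ∈ Lb (T R) b l → q.1 ∈ Lb (T R) b l → p.1 < q.1 → p.2 ≤ q.2) ∨
    (∀ p ∈ R, ∀ q ∈ R, p.1 ∈ Lb (T R) b l → q.1 ∈ Lb (T R) b l → p.1 < q.1 → q.2 ≤ p.2) := by
  by_contra hc
  rw [not_or] at hc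
  obtain ⟨h1, h2⟩ := hc
  push Not at h1 h2
  obtain ⟨p, hp, q, hq, a1, a2, a3, a4⟩ := h1
  obtain ⟨p', hp', q', hq', b1, b2, b3, b4⟩ := h2
  have hu : min p.1 p'.1 ∈ Lb (T R) b l := by
    rcases min_choice p.1 p'.1 with e | e <;> rw [e]
    · exact a1
    · exact b1
  have hv : max q.1 q'.1 ∈ Lb (T R) b l := by
    rcases max_choice q.1 q'.1 with e | e <;> rw [e]
    · exact a2
    · exact b2
  have huv : min p.1 p'.1 < max q.1 q'.1 :=
    lt_of_le_of_lt (min_le_left _ _) (lt_of_lt_of_le a3 (le_max_left _ _))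
  obtain ⟨u', v', e1, e2, e3⟩ := mono_Icc hR huv.le fun w hw hwT =>
    Lb_between hu hv hwT hw.1 hw.2 huv
  have f1 : u' < p.1 := lt_of_lt_of_le e1 (min_le_left _ _)
  have f2 : u' < p'.1 := lt_of_lt_of_le e1 (min_le_right _ _)
  have f3 : q.1 < v' := lt_of_le_of_lt (le_max_left _ _) e2
  have f4 : q'.1 < v' := lt_of_le_of_lt (le_max_right _ _) e2
  rcases e3 with e3 | e3
  · exact absurd (e3 p hp q hq f1 a3 f3) (not_le.mpr a4)
  · exact absurd (e3 p' hp' q' hq' f2 b3 f4) (not_le.mpr b4)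

/-- The pieces of a relation. -/
def PC (R : Set (ℝ × ℝ)) (b : ℝ) (l : Lab) : Set (ℝ × ℝ) :=
  closure {p | p ∈ R ∧ p.1 ∈ Lb (T R) b l}

/-- Closures of monotone relations are monotone. -/
theorem mono_closure {S : Set (ℝ × ℝ)}
    (h : (∀ p ∈ S, ∀ q ∈ S, p.1 < q.1 → p.2 ≤ q.2) ∨ (∀ p ∈ S, ∀ q ∈ S, p.1 < q.1 → q.2 ≤ p.2)) :
    (∀ p ∈ closure S, ∀ q ∈ closure S, p.1 < q.1 → p.2 ≤ q.2) ∨
      (∀ p ∈ closure S, ∀ q ∈ closure S, p.1 < q.1 → q.2 ≤ p.2) := by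
  rcases h with h | h
  · left
    intro p hp q hq hpq
    by_contra hc
    have hc : q.2 < p.2 := not_le.mp hc
    obtain ⟨m, m1, m2⟩ := exists_between hpq
    obtain ⟨n, n1, n2⟩ := exists_between hc
    obtain ⟨p', ⟨a1, a2⟩, hp'⟩ := mem_closure_iff.mp hp (Iio m ×ˢ Ioi n) (isOpen_Iio.prod isOpen_Ioi)
      ⟨m1, n2⟩
    obtain ⟨q', ⟨b1, b2⟩, hq'⟩ := mem_closure_iff.mp hq (Ioi m ×ˢ Iio n) (isOpen_Ioi.prod isOpen_Iio)
      ⟨m2, n1⟩
    have a1 : p'.1 < m := a1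
    have a2 : n < p'.2 := a2
    have b1 : m < q'.1 := b1
    have b2 : q'.2 < n := b2
    have := h p' hp' q' hq' (a1.trans b1)
    linarith
  · right
    intro p hp q hq hpq
    by_contra hc
    have hc : p.2 < q.2 := not_le.mp hc
    obtain ⟨m, m1, m2⟩ := exists_between hpq
    obtain ⟨n, n1, n2⟩ := exists_between hc
    obtain ⟨p', ⟨a1, a2⟩, hp'⟩ := mem_closure_iff.mp hp (Iio m ×ˢ Iio n) (isOpen_Iio.prod isOpen_Iio)
      ⟨m1, n1⟩
    obtain ⟨q', ⟨b1, b2⟩, hq'⟩ := mem_closure_iff.mp hq (Ioi m ×ˢ Ioi n) (isOpen_Ioi.prod isOpen_Ioi)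
      ⟨m2, n2⟩
    have a1 : p'.1 < m := a1
    have a2 : p'.2 < n := a2
    have b1 : m < q'.1 := b1
    have b2 : n < q'.2 := b2
    have := h p' hp' q' hq' (a1.trans b1)
    linarith

theorem mono_PC (hR : LPM R) (b : ℝ) (l : Lab) :
    (∀ p ∈ PC R b l, ∀ q ∈ PC R b l, p.1 < q.1 → p.2 ≤ q.2) ∨
      (∀ p ∈ PC R b l, ∀ q ∈ PC R b l, p.1 < q.1 → q.2 ≤ p.2) := by
  refine mono_closure ?_
  rcases mono_Lb hR b l with h | h
  · exact Or.inl fun p hp q hq => h p hp.1 q hq.1 hp.2 hq.2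
  · exact Or.inr fun p hp q hq => h p hp.1 q hq.1 hp.2 hq.2

theorem PC_sub (hcl : IsClosed R) (b : ℝ) (l : Lab) : PC R b l ⊆ R :=
  closure_minimal (fun _ hp => hp.1) hcl

theorem iUnion_PC (hR : LPM R) (hcl : IsClosed R) (b : ℝ) : ⋃ l, PC R b l = R := by
  refine subset_antisymm (iUnion_subset fun l => PC_sub hcl b l) fun p hp => ?_
  obtain ⟨l, hl⟩ := exists_label (finite_Icc hR) b p.1
  exact mem_iUnion.mpr ⟨l, subset_closure ⟨hp, hl⟩⟩

end Pool.Agent.H642.LP
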