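import Pool.Agent.H642.LP.Box

set_option autoImplicit false

/-!
Measurability of the boxes that meet the pieces.
-/

open Set

namespace Pool.Agent.H642.LP

variable {Ω : Type} [MeasurableSpace Ω]

/-- Measurable families of relations. -/
def EM (R : Ω → Set (ℝ × ℝ)) : Prop :=
  ∀ U, IsOpen U → Measurable fun ω => ((R ω ∩ U).Nonempty : Prop)

variable {R : Ω → Set (ℝ × ℝ)} {b : Ω → ℝ}

theorem MI_iff {R : Set (ℝ × ℝ)} {u v : ℝ} : MI R u v ↔ ∀ m m' : ℚ,
    ¬ ((R ∩ Ioo u (m : ℝ) ×ˢ Ioi (m' : ℝ)).Nonempty ∧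
      (R ∩ Ioo (m : ℝ) v ×ˢ Iio (m' : ℝ)).Nonempty) := by
  constructor
  · rintro h m m' ⟨⟨p, hp, ⟨a1, a2⟩, a3⟩, ⟨q, hq, ⟨b1, b2⟩, b3⟩⟩
    have a3 : (m' : ℝ) < p.2 := a3
    have b3 : q.2 < m' := b3
    have := h p hp q hq a1 (a2.trans b1) b2
    linarith
  · intro h p hp q hq h1 h2 h3
    by_contra hc
    obtain ⟨m, hm1, hm2⟩ := exists_rat_btwn h2
    obtain ⟨m', hm1', hm2'⟩ := exists_rat_btwn (not_le.mp hc)
    exact h m m' ⟨⟨p, hp, ⟨h1, hm1⟩, hm2'⟩, ⟨q, hq, ⟨hm2, h3⟩, hm1'⟩⟩

theorem MD_iff {R : Set (ℝ × ℝ)} {u v : ℝ} : MD R u v ↔ ∀ m m' : ℚ,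
    ¬ ((R ∩ Ioo u (m : ℝ) ×ˢ Iio (m' : ℝ)).Nonempty ∧
      (R ∩ Ioo (m : ℝ) v ×ˢ Ioi (m' : ℝ)).Nonempty) := by
  constructor
  · rintro h m m' ⟨⟨p, hp, ⟨a1, a2⟩, a3⟩, ⟨q, hq, ⟨b1, b2⟩, b3⟩⟩
    have a3 : p.2 < m' := a3
    have b3 : (m' : ℝ) < q.2 := b3
    have := h p hp q hq a1 (a2.trans b1) b2
    linarith
  · intro h p hp q hq h1 h2 h3
    by_contra hc
    obtain ⟨m, hm1, hm2⟩ := exists_rat_btwn h2
    obtain ⟨m', hm1', hm2'⟩ := exists_rat_btwn (not_le.mp hc)
    exact h m m' ⟨⟨p, hp, ⟨h1, hm1⟩, hm1'⟩, ⟨q, hq, ⟨hm2, h3⟩, hm2'⟩⟩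

theorem m_MM (hR : EM R) (u v : ℝ) : Measurable fun ω => MM (R ω) u v := by
  unfold MM
  simp only [MI_iff, MD_iff]
  exact .or (.forall fun m => .forall fun m' => .not (.and (hR _ (isOpen_Ioo.prod isOpen_Ioi))
    (hR _ (isOpen_Ioo.prod isOpen_Iio)))) (.forall fun m => .forall fun m' => .not (.and
    (hR _ (isOpen_Ioo.prod isOpen_Iio)) (hR _ (isOpen_Ioo.prod isOpen_Ioi))))

theorem m_T (hR : EM R) (p q : ℝ) : Measurable fun ω => ((T (R ω) ∩ Ioo p q).Nonempty : Prop) := by
  simp only [T_inter_iff]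
  exact .exists fun r => .exists fun s => .exists fun s' => .and measurable_const (.and
    measurable_const (.and measurable_const (.and measurable_const (.and (m_MM hR r s)
      (.not (m_MM hR r s'))))))

theorem m_lt (hb : Measurable b) (q : ℝ) : Measurable fun ω => (b ω < q : Prop) :=
  measurableSet_setOfPred.mp (measurableSet_lt hb measurable_const)

theorem m_gt (hb : Measurable b) (q : ℝ) : Measurable fun ω => (q < b ω : Prop) :=
  measurableSet_setOfPred.mp (measurableSet_lt measurable_const hb)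

theorem m_AL (hR : EM R) (i : ℕ) : ∀ (p q : ℝ), Measurable fun ω => AL (T (R ω)) i p q := by
  induction i with
  | zero => exact fun _ _ => measurable_const
  | succ i ih =>
    exact fun p q => .exists fun s => .and measurable_const (.and measurable_const
      (.and (ih _ _) (m_T hR s q)))

theorem m_ALr (hR : EM R) (hb : Measurable b) (i : ℕ) :
    ∀ (q : ℝ), Measurable fun ω => AL (T (R ω)) i (b ω) q := by
  induction i with
  | zero => exact fun _ => measurable_const
  | succ i ih =>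
    exact fun q => .exists fun s => .and (m_lt hb s) (.and measurable_const
      (.and (ih _) (m_T hR s q)))

theorem T_inter_cut {A : Set ℝ} {s v : ℝ} : (A ∩ Ioo s v).Nonempty ↔
    ∃ r : ℚ, (r : ℝ) < v ∧ (A ∩ Ioo s r).Nonempty := by
  constructor
  · rintro ⟨w, h1, h2, h3⟩
    obtain ⟨r, h4, h5⟩ := exists_rat_btwn h3
    exact ⟨r, h5, w, h1, h2, h4⟩
  · rintro ⟨r, h1, w, h2, h3, h4⟩
    exact ⟨w, h2, h3, h4.trans h1⟩

theorem m_Tl (hR : EM R) (hb : Measurable b) (p : ℝ) :
    Measurable fun ω => ((T (R ω) ∩ Ioo p (b ω)).Nonempty : Prop) := by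
  have h : (fun ω => ((T (R ω) ∩ Ioo p (b ω)).Nonempty : Prop)) =
      fun ω => ∃ r : ℚ, (r : ℝ) < b ω ∧ (T (R ω) ∩ Ioo p r).Nonempty := by
    funext ω
    exact propext T_inter_cut
  rw [h]
  exact .exists fun r => .and (m_gt hb r) (m_T hR p r)

theorem m_ALl (hR : EM R) (hb : Measurable b) (i : ℕ) :
    ∀ (p : ℝ), Measurable fun ω => AL (T (R ω)) i p (b ω) := by
  cases i with
  | zero => exact fun _ => measurable_const
  | succ i =>
    exact fun p => .exists fun s => .and measurable_const (.and (m_gt hb s)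
      (.and (m_AL hR i p s) (m_Tl hR hb s)))

theorem m_HL (hR : EM R) (hb : Measurable b) (l : Lab) (p q c d : ℚ) :
    Measurable fun ω => HL (R ω) (b ω) l p q c d := by
  have hbox : ∀ p q c d : ℝ, Measurable fun ω => ((R ω ∩ Ioo p q ×ˢ Ioo c d).Nonempty : Prop) :=
    fun p q c d => hR _ (isOpen_Ioo.prod isOpen_Ioo)
  match l with
  | none =>
    exact .and (m_gt hb p) (.and (m_lt hb q) (.exists fun c' => .exists fun d' => .and
      measurable_const (.and measurable_const (.forall fun p' => .forall fun q' => .imp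
        (m_gt hb p') (.imp (m_lt hb q') (hbox _ _ _ _))))))
  | some ((true, i), false) =>
    exact .exists fun p' => .exists fun q' => .and measurable_const (.and measurable_const (.and
      (m_lt hb p') (.and (m_ALr hR hb i p') (.and (.not (m_ALr hR hb (i + 1) q'))
        (hbox _ _ _ _)))))
  | some ((false, i), false) =>
    exact .exists fun p' => .exists fun q' => .and measurable_const (.and measurable_const (.and
      (m_gt hb q') (.and (m_ALl hR hb i q') (.and (.not (m_ALl hR hb (i + 1) p'))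
        (hbox _ _ _ _)))))
  | some ((true, i), true) =>
    exact .exists fun p' => .exists fun q' => .exists fun c' => .exists fun d' => .and
      measurable_const (.and measurable_const (.and measurable_const (.and measurable_const (.and
      (m_lt hb p') (.and (m_ALr hR hb i p') (.and (.not (m_ALr hR hb (i + 2) q')) (.and
        (m_T hR _ _) (.forall fun p'' => .forall fun q'' => .imp measurable_const (.imp
          measurable_const (.imp (m_T hR _ _) (hbox _ _ _ _)))))))))))
  | some ((false, i), true) =>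
    exact .exists fun p' => .exists fun q' => .exists fun c' => .exists fun d' => .and
      measurable_const (.and measurable_const (.and measurable_const (.and measurable_const (.and
      (m_gt hb q') (.and (m_ALl hR hb i q') (.and (.not (m_ALl hR hb (i + 2) p')) (.and
        (m_T hR _ _) (.forall fun p'' => .forall fun q'' => .imp measurable_const (.imp
          measurable_const (.imp (m_T hR _ _) (hbox _ _ _ _)))))))))))

end Pool.Agent.H642.LP
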